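import Mathlib

set_option autoImplicit false

open Finset

namespace Pool.Agent.H25

/-- First moment of a sum of independent samples, weighted by a product weight `g`. -/
theorem sum_fun_first {V : Type*} [Fintype V] [DecidableEq V] (k : ℕ) (g w : V → ℝ) :
    ∑ u : Fin k → V, (∑ a, w (u a)) * ∏ a, g (u a)
      = k * (∑ x, w x * g x) * (∑ x, g x) ^ (k - 1) := by
  classical
  have h1 : ∀ a : Fin k, ∑ u : Fin k → V, w (u a) * ∏ i, g (u i)
      = (∑ x, w x * g x) * (∑ x, g x) ^ (k - 1) := by
    intro a
    have h2 : ∀ u : Fin k → V, w (u a) * ∏ i, g (u i)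
        = ∏ i, (if i = a then w (u i) * g (u i) else g (u i)) := by
      intro u
      rw [← Finset.mul_prod_erase Finset.univ (fun i => g (u i)) (Finset.mem_univ a),
        ← Finset.mul_prod_erase Finset.univ _ (Finset.mem_univ a)]
      simp only [if_true]
      rw [← mul_assoc]
      congr 1
      apply Finset.prod_congr rfl
      intro i hi
      rw [if_neg (Finset.ne_of_mem_erase hi)]
    simp_rw [h2]
    have h3 := Finset.prod_univ_sum (fun _ : Fin k => (Finset.univ : Finset V))
      (fun i x => if i = a then w x * g x else g x)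
    rw [Fintype.piFinset_univ] at h3
    rw [← h3]
    rw [← Finset.mul_prod_erase Finset.univ _ (Finset.mem_univ a)]
    simp only [if_true]
    congr 1
    rw [Finset.prod_congr rfl (g := fun _ => ∑ x, g x)]
    · rw [Finset.prod_const, Finset.card_erase_of_mem (Finset.mem_univ a), Finset.card_univ,
        Fintype.card_fin]
    · intro i hi
      apply Finset.sum_congr rfl
      intro x _
      rw [if_neg (Finset.ne_of_mem_erase hi)]
  simp_rw [Finset.sum_mul]
  rw [Finset.sum_comm]
  simp_rw [h1]
  rw [Finset.sum_const, Finset.card_univ, Fintype.card_fin, nsmul_eq_mul, mul_assoc]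

/-- Second moment of a sum of independent samples from the probability weight `p`. -/
theorem sum_fun_second {V : Type*} [Fintype V] [DecidableEq V] (k : ℕ) (p w : V → ℝ)
    (hp : ∑ x, p x = 1) :
    ∑ u : Fin k → V, (∑ a, w (u a)) ^ 2 * ∏ a, p (u a)
      = k * (∑ x, w x ^ 2 * p x) + k * (k - 1) * (∑ x, w x * p x) ^ 2 := by
  classical
  have h1 : ∀ a b : Fin k, ∑ u : Fin k → V, w (u a) * w (u b) * ∏ i, p (u i)
      = if a = b then (∑ x, w x ^ 2 * p x) else (∑ x, w x * p x) ^ 2 := by
    intro a b
    have h2 : ∀ u : Fin k → V, w (u a) * w (u b) * ∏ i, p (u i)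
        = ∏ i, ((if i = a then w (u i) else 1) * (if i = b then w (u i) else 1) * p (u i)) := by
      intro u
      rw [Finset.prod_mul_distrib, Finset.prod_mul_distrib]
      simp
    simp_rw [h2]
    have h3 := Finset.prod_univ_sum (fun _ : Fin k => (Finset.univ : Finset V))
      (fun i x => (if i = a then w x else 1) * (if i = b then w x else 1) * p x)
    rw [Fintype.piFinset_univ] at h3
    rw [← h3]
    by_cases hab : a = b
    · subst hab
      rw [if_pos rfl, ← Finset.mul_prod_erase Finset.univ _ (Finset.mem_univ a)]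
      rw [Finset.prod_eq_one]
      · simp [sq]
      · intro i hi
        simp [Finset.ne_of_mem_erase hi, hp]
    · rw [if_neg hab, ← Finset.mul_prod_erase Finset.univ _ (Finset.mem_univ a),
        ← Finset.mul_prod_erase (Finset.univ.erase a) _
          (Finset.mem_erase.2 ⟨fun h => hab h.symm, Finset.mem_univ b⟩)]
      rw [Finset.prod_eq_one]
      · simp [hab, Ne.symm hab, sq]
      · intro i hi
        have hi1 := Finset.mem_erase.1 hi
        have hi2 := Finset.mem_erase.1 hi1.2
        simp [hi1.1, hi2.1, hp]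
  have h4 : ∀ u : Fin k → V, (∑ a, w (u a)) ^ 2 * ∏ a, p (u a)
      = ∑ a, ∑ b, w (u a) * w (u b) * ∏ i, p (u i) := by
    intro u
    rw [sq, Finset.sum_mul_sum, Finset.sum_mul]
    apply Finset.sum_congr rfl
    intro a _
    rw [Finset.sum_mul]
  simp_rw [h4]
  rw [Finset.sum_comm]
  have h5 : ∀ a : Fin k, ∑ u : Fin k → V, ∑ b, w (u a) * w (u b) * ∏ i, p (u i)
      = (∑ x, w x ^ 2 * p x) + (k - 1) * (∑ x, w x * p x) ^ 2 := by
    intro a
    rw [Finset.sum_comm]
    simp_rw [h1]
    have h6 : ∀ b : Fin k, (if a = b then (∑ x, w x ^ 2 * p x) else (∑ x, w x * p x) ^ 2)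
        = (∑ x, w x * p x) ^ 2
          + if a = b then (∑ x, w x ^ 2 * p x) - (∑ x, w x * p x) ^ 2 else 0 := by
      intro b
      split_ifs <;> ring
    simp_rw [h6]
    rw [Finset.sum_add_distrib, Finset.sum_ite_eq, if_pos (Finset.mem_univ a), Finset.sum_const,
      Finset.card_univ, Fintype.card_fin, nsmul_eq_mul]
    ring
  simp_rw [h5]
  rw [Finset.sum_const, Finset.card_univ, Fintype.card_fin, nsmul_eq_mul]
  ring

end Pool.Agent.H25
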