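import Mathlib
import Pool.Agent.H25.Grid1

set_option autoImplicit false

open Finset

namespace Pool.Agent.H25

/-- Moment inequality: tilt by a density `ν`, then Jensen and Cauchy-Schwarz. -/
theorem power_moment {Ω : Type*} [Fintype Ω] (P ν Z : Ω → ℝ) (hP : ∀ x, 0 ≤ P x)
    (hν : ∀ x, 0 ≤ ν x) (hZ : ∀ x, 0 ≤ Z x) (h1 : ∑ x, ν x * P x = 1) (m : ℕ) (hm : 2 ≤ m) :
    (∑ x, ν x * P x * Z x) ^ m ≤ (∑ x, ν x ^ 2 * P x) * (∑ x, Z x ^ m * P x) := by
  have hm1 : (1 : ℝ) ≤ (m : ℝ) / 2 := by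
    have : (2 : ℝ) ≤ m := by exact_mod_cast hm
    linarith
  have hnn : 0 ≤ ∑ x, ν x * P x * Z x :=
    Finset.sum_nonneg fun x _ => mul_nonneg (mul_nonneg (hν x) (hP x)) (hZ x)
  have hJ := Real.rpow_arith_mean_le_arith_mean_rpow Finset.univ (fun x => ν x * P x) Z
    (fun x _ => mul_nonneg (hν x) (hP x)) h1 (fun x _ => hZ x) hm1
  have hCS : (∑ x, ν x * P x * Z x ^ ((m : ℝ) / 2)) ^ 2
      ≤ (∑ x, ν x ^ 2 * P x) * (∑ x, Z x ^ m * P x) := by
    apply Finset.sum_sq_le_sum_mul_sum_of_sq_le_mul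
    · intro x _
      exact mul_nonneg (sq_nonneg _) (hP x)
    · intro x _
      exact mul_nonneg (pow_nonneg (hZ x) _) (hP x)
    · intro x _
      have : (Z x ^ ((m : ℝ) / 2)) ^ 2 = Z x ^ m := by
        rw [← Real.rpow_natCast, ← Real.rpow_mul (hZ x), ← Real.rpow_natCast]
        congr 1
        push_cast
        ring
      rw [mul_pow, mul_pow, this]
      apply le_of_eq
      ring
  have hA : (∑ x, ν x * P x * Z x) ^ m
      = ((∑ x, ν x * P x * Z x) ^ ((m : ℝ) / 2)) ^ 2 := by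
    rw [← Real.rpow_natCast (_ ^ ((m : ℝ) / 2)) 2, ← Real.rpow_mul hnn, ← Real.rpow_natCast]
    congr 1
    push_cast
    ring
  rw [hA]
  refine le_trans ?_ hCS
  apply pow_le_pow_left₀ (Real.rpow_nonneg hnn _)
  exact hJ

section Kernel

variable {V : Type*} [Fintype V] [DecidableEq V] {r : ℕ} (p : V → ℝ) (π : V → Fin r)

/-- Weight of part `c`. -/
noncomputable def mu (c : Fin r) : ℝ := ∑ x, if π x = c then p x else 0

/-- The projection kernel onto functions of the part. -/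
noncomputable def psi (x y : V) : ℝ := if π x = π y then (mu p π (π x))⁻¹ else 0

variable {p π}

theorem mu_nonneg (hp : ∀ x, 0 < p x) (c : Fin r) : 0 ≤ mu p π c := by
  unfold mu
  apply Finset.sum_nonneg
  intro x _
  split_ifs
  · exact (hp x).le
  · exact le_rfl

theorem mu_pos (hp : ∀ x, 0 < p x) (x : V) : 0 < mu p π (π x) := by
  unfold mu
  have h := Finset.single_le_sum (f := fun y => if π y = π x then p y else 0)
    (fun y _ => by
      split_ifs
      · exact (hp y).le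
      · exact le_rfl) (Finset.mem_univ x)
  simp only [if_true] at h
  exact lt_of_lt_of_le (hp x) h

theorem psi_nonneg (hp : ∀ x, 0 < p x) (x y : V) : 0 ≤ psi p π x y := by
  unfold psi
  split_ifs
  · exact inv_nonneg.2 (mu_nonneg hp _)
  · exact le_rfl

theorem psi_comm (x y : V) : psi p π x y = psi p π y x := by
  unfold psi
  by_cases h : π x = π y
  · rw [if_pos h, if_pos h.symm, h]
  · rw [if_neg h, if_neg (fun h' => h h'.symm)]

theorem sum_psi (hp : ∀ x, 0 < p x) (x : V) : ∑ y, psi p π x y * p y = 1 := by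
  have h : ∀ y, psi p π x y * p y = (mu p π (π x))⁻¹ * (if π y = π x then p y else 0) := by
    intro y
    unfold psi
    by_cases h : π x = π y
    · rw [if_pos h, if_pos h.symm]
    · rw [if_neg h, if_neg (fun h' => h h'.symm)]; ring
  simp_rw [h]
  rw [← Finset.mul_sum]
  exact inv_mul_cancel₀ (mu_pos hp x).ne'

theorem sum_psi_sq (hp : ∀ x, 0 < p x) (x : V) :
    ∑ y, psi p π x y ^ 2 * p y = (mu p π (π x))⁻¹ := by
  have h : ∀ y, psi p π x y ^ 2 * p y = (mu p π (π x))⁻¹ * (psi p π x y * p y) := by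
    intro y
    unfold psi
    split_ifs <;> ring
  simp_rw [h]
  rw [← Finset.mul_sum, sum_psi hp, mul_one]

theorem sum_mu : ∑ c, mu p π c = ∑ x, p x := by
  unfold mu
  rw [Finset.sum_comm]
  apply Finset.sum_congr rfl
  intro x _
  simp

theorem sum_comp_part (f : Fin r → ℝ) :
    ∑ x, f (π x) * p x = ∑ c, f c * mu p π c := by
  unfold mu
  simp_rw [Finset.mul_sum]
  rw [Finset.sum_comm]
  apply Finset.sum_congr rfl
  intro x _
  rw [Finset.sum_eq_single (π x)]
  · simp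
  · intro c _ hc
    rw [if_neg (Ne.symm hc), mul_zero]
  · intro h
    exact absurd (Finset.mem_univ _) h

theorem sum_inv_mu_le : ∑ x, (mu p π (π x))⁻¹ * p x ≤ r := by
  rw [sum_comp_part (fun c => (mu p π c)⁻¹)]
  calc ∑ c, (mu p π c)⁻¹ * mu p π c ≤ ∑ c : Fin r, (1 : ℝ) := by
        apply Finset.sum_le_sum
        intro c _
        by_cases h : mu p π c = 0
        · rw [h]; simp
        · rw [inv_mul_cancel₀ h]
    _ = r := by simp

/-- The tilting density on a pair of `k`-tuples. -/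
noncomputable def nu (p : V → ℝ) (π : V → Fin r) (k : ℕ) (u v : Fin k → V) : ℝ :=
  (∑ a, ∑ b, psi p π (u a) (v b)) / (k : ℝ) ^ 2

theorem nu_nonneg (hp : ∀ x, 0 < p x) (k : ℕ) (u v : Fin k → V) : 0 ≤ nu p π k u v := by
  unfold nu
  apply div_nonneg _ (sq_nonneg _)
  exact Finset.sum_nonneg fun a _ => Finset.sum_nonneg fun b _ => psi_nonneg hp _ _

theorem nu_first (k : ℕ) (hk : 0 < k) (g : V → ℝ) :
    ∑ u : Fin k → V, ∑ v : Fin k → V, nu p π k u v * ((∏ a, g (u a)) * ∏ a, g (v a))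
      = (∑ x, g x) ^ (2 * (k - 1)) * ∑ x, ∑ y, psi p π x y * g x * g y := by
  have hk' : (k : ℝ) ≠ 0 := by exact_mod_cast hk.ne'
  have h1 : ∀ u v : Fin k → V, nu p π k u v * ((∏ a, g (u a)) * ∏ a, g (v a))
      = (((∑ a, (∑ b, psi p π (u a) (v b))) * ∏ a, g (u a)) * ∏ a, g (v a)) / (k : ℝ) ^ 2 := by
    intro u v
    unfold nu
    ring
  simp_rw [h1]
  rw [Finset.sum_comm]
  simp_rw [← Finset.sum_div, ← Finset.sum_mul]
  have h2 : ∀ v : Fin k → V, ∑ u : Fin k → V, (∑ a, (∑ b, psi p π (u a) (v b))) * ∏ a, g (u a)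
      = k * (∑ b, ∑ x, psi p π x (v b) * g x) * (∑ x, g x) ^ (k - 1) := by
    intro v
    rw [sum_fun_first k g (fun x => ∑ b, psi p π x (v b))]
    congr 2
    simp_rw [Finset.sum_mul]
    rw [Finset.sum_comm]
  simp_rw [h2]
  have h3 : ∑ v : Fin k → V, k * (∑ b, ∑ x, psi p π x (v b) * g x) * (∑ x, g x) ^ (k - 1)
        * ∏ a, g (v a)
      = k * (∑ x, g x) ^ (k - 1) *
        ∑ v : Fin k → V, (∑ b, ∑ x, psi p π x (v b) * g x) * ∏ a, g (v a) := by
    rw [Finset.mul_sum]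
    apply Finset.sum_congr rfl
    intro v _
    ring
  rw [h3, sum_fun_first k g (fun y => ∑ x, psi p π x y * g x)]
  have h4 : ∑ y, (∑ x, psi p π x y * g x) * g y = ∑ x, ∑ y, psi p π x y * g x * g y := by
    simp_rw [Finset.sum_mul]
    rw [Finset.sum_comm]
  rw [h4, two_mul, pow_add]
  field_simp

theorem nu_mean (hp : ∀ x, 0 < p x) (hp1 : ∑ x, p x = 1) (k : ℕ) (hk : 0 < k) :
    ∑ u : Fin k → V, ∑ v : Fin k → V, nu p π k u v * ((∏ a, p (u a)) * ∏ a, p (v a)) = 1 := by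
  rw [nu_first k hk p, hp1, one_pow, one_mul]
  have : ∀ x, ∑ y, psi p π x y * p x * p y = p x := by
    intro x
    have h : ∀ y, psi p π x y * p x * p y = p x * (psi p π x y * p y) := fun y => by ring
    simp_rw [h]
    rw [← Finset.mul_sum, sum_psi hp, mul_one]
  simp_rw [this]
  exact hp1

theorem nu_second (hp : ∀ x, 0 < p x) (hp1 : ∑ x, p x = 1) (k : ℕ) (hk : 0 < k) :
    ∑ u : Fin k → V, ∑ v : Fin k → V, nu p π k u v ^ 2 * ((∏ a, p (u a)) * ∏ a, p (v a))
      ≤ 1 + r / (k : ℝ) ^ 2 := by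
  have hk' : (0 : ℝ) < k := by exact_mod_cast hk
  have h1 : ∀ u v : Fin k → V, nu p π k u v ^ 2 * ((∏ a, p (u a)) * ∏ a, p (v a))
      = (((∑ a, (∑ b, psi p π (u a) (v b))) ^ 2 * ∏ a, p (u a)) * ∏ a, p (v a))
        / (k : ℝ) ^ 4 := by
    intro u v
    unfold nu
    ring
  simp_rw [h1]
  rw [Finset.sum_comm]
  simp_rw [← Finset.sum_div, ← Finset.sum_mul]
  have h2 : ∀ v : Fin k → V,
      ∑ u : Fin k → V, (∑ a, (∑ b, psi p π (u a) (v b))) ^ 2 * ∏ a, p (u a)
      = k * (∑ x, (∑ b, psi p π x (v b)) ^ 2 * p x) + k * (k - 1) * (k : ℝ) ^ 2 := by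
    intro v
    rw [sum_fun_second k p (fun x => ∑ b, psi p π x (v b)) hp1]
    congr 3
    simp_rw [Finset.sum_mul]
    rw [Finset.sum_comm]
    have : ∀ b, ∑ x, psi p π x (v b) * p x = 1 := by
      intro b
      simp_rw [psi_comm _ (v b)]
      exact sum_psi hp _
    simp_rw [this]
    simp
  simp_rw [h2]
  have h3 : ∑ v : Fin k → V, (k * (∑ x, (∑ b, psi p π x (v b)) ^ 2 * p x)
        + k * (k - 1) * (k : ℝ) ^ 2) * ∏ a, p (v a)
      = k * (∑ x, (∑ v : Fin k → V, (∑ b, psi p π x (v b)) ^ 2 * ∏ a, p (v a)) * p x)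
        + k * (k - 1) * (k : ℝ) ^ 2 := by
    simp_rw [add_mul]
    rw [Finset.sum_add_distrib]
    congr 1
    · simp_rw [Finset.mul_sum, Finset.sum_mul]
      rw [Finset.sum_comm]
      apply Finset.sum_congr rfl
      intro x _
      rw [Finset.mul_sum]
      apply Finset.sum_congr rfl
      intro v _
      ring
    · rw [← Finset.mul_sum]
      have h4 := Finset.prod_univ_sum (fun _ : Fin k => (Finset.univ : Finset V))
        (fun _ x => p x)
      rw [Fintype.piFinset_univ] at h4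
      rw [← h4]
      simp [hp1]
  rw [h3]
  have h5 : ∀ x, ∑ v : Fin k → V, (∑ b, psi p π x (v b)) ^ 2 * ∏ a, p (v a)
      = k * (mu p π (π x))⁻¹ + k * (k - 1) := by
    intro x
    rw [sum_fun_second k p (fun y => psi p π x y) hp1, sum_psi_sq hp, sum_psi hp]
    ring
  simp_rw [h5, add_mul]
  rw [Finset.sum_add_distrib, ← Finset.mul_sum, hp1]
  have h6 : ∑ x, (k : ℝ) * (mu p π (π x))⁻¹ * p x ≤ k * r := by
    have : ∀ x, (k : ℝ) * (mu p π (π x))⁻¹ * p x = k * ((mu p π (π x))⁻¹ * p x) := by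
      intro x; ring
    simp_rw [this]
    rw [← Finset.mul_sum]
    exact mul_le_mul_of_nonneg_left sum_inv_mu_le hk'.le
  rw [div_le_iff₀ (by positivity)]
  have h7 : (1 + (r : ℝ) / (k : ℝ) ^ 2) * (k : ℝ) ^ 4 = (k : ℝ) ^ 4 + r * (k : ℝ) ^ 2 := by
    field_simp
  rw [h7]
  nlinarith [mul_le_mul_of_nonneg_left h6 hk'.le]

end Kernel

end Pool.Agent.H25
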