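import Mathlib
import Pool.Agent.H25.Grid2

set_option autoImplicit false
set_option linter.unusedSectionVars false

open Finset

namespace Pool.Agent.H25

theorem tangent_pow (t τ : ℝ) (ht : 0 ≤ t) (hτ : 0 < τ) (s : ℕ) (hs : 1 ≤ s) :
    τ ^ (s - 1) * (s * t - (s - 1) * τ) ≤ t ^ s := by
  have h1 : (-2 : ℝ) ≤ t / τ - 1 := by
    have : 0 ≤ t / τ := div_nonneg ht hτ.le
    linarith
  have h2 := one_add_mul_le_pow h1 s
  have h3 : (1 + (t / τ - 1)) ^ s = t ^ s / τ ^ s := by
    rw [← div_pow]; congr 1; ring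
  rw [h3, le_div_iff₀ (pow_pos hτ s)] at h2
  refine le_trans (le_of_eq ?_) h2
  obtain ⟨s', rfl⟩ : ∃ s', s = s' + 1 := ⟨s - 1, by omega⟩
  simp only [Nat.add_sub_cancel]
  push_cast
  field_simp
  ring

/-- Lower bound for a weighted power mean when a `3/4` portion carries an extra weight. -/
theorem weighted_power {V : Type*} [Fintype V] (p D w : V → ℝ) (good : V → Prop)
    [DecidablePred good] (hp : ∀ x, 0 < p x) (hp1 : ∑ x, p x = 1) (hD : ∀ y, 0 ≤ D y)
    (x : ℝ) (hx0 : 0 ≤ x) (hx1 : x ≤ 1) (hw1 : ∀ y, 1 ≤ w y) (hwg : ∀ y, good y → 1 + x ≤ w y)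
    (hgood : 3 / 4 ≤ ∑ y, if good y then p y else 0) (s : ℕ) (hs : 2 ≤ s) :
    (∑ y, p y * D y) ^ s * (1 + 3 * x / 16) ≤ ∑ y, p y * (D y ^ s * w y) := by
  set u : ℝ := ∑ y, p y * D y with hu
  have hu0 : 0 ≤ u := Finset.sum_nonneg fun y _ => mul_nonneg (hp y).le (hD y)
  have hRHS : 0 ≤ ∑ y, p y * (D y ^ s * w y) :=
    Finset.sum_nonneg fun y _ => mul_nonneg (hp y).le
      (mul_nonneg (pow_nonneg (hD y) _) (le_trans zero_le_one (hw1 y)))
  rcases hu0.eq_or_lt with h0 | hupos
  · rw [← h0, zero_pow (by omega), zero_mul]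
    exact hRHS
  have hs' : (2 : ℝ) ≤ s := by exact_mod_cast hs
  have hspos : (0 : ℝ) < s := by linarith
  -- the shift
  set η : ℝ := x / 2 with hη
  set τ : ℝ := 1 - η / s with hτ
  have hη0 : 0 ≤ η := by rw [hη]; linarith
  have hη1 : η ≤ 1 / 2 := by rw [hη]; linarith
  have hηs : η / s ≤ 1 / 4 := by
    rw [div_le_iff₀ hspos]; linarith
  have hηs0 : 0 ≤ η / s := div_nonneg hη0 hspos.le
  have hτpos : 0 < τ := by rw [hτ]; linarith
  have hτle : τ ≤ 1 := by rw [hτ]; linarith
  have hτpow : 1 ≤ (1 + x) * τ ^ (s - 1) := by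
    have h1 := one_add_mul_le_pow (show (-2 : ℝ) ≤ -(η / s) by linarith) (s - 1)
    have h2 : (1 : ℝ) + -(η / s) = τ := by rw [hτ]; ring
    rw [h2] at h1
    have h3 : ((s - 1 : ℕ) : ℝ) = (s : ℝ) - 1 := by
      rw [Nat.cast_sub (by omega)]; simp
    rw [h3] at h1
    have h4 : ((s : ℝ) - 1) * (η / s) ≤ η := by
      have : ((s : ℝ) - 1) * (η / s) = η - η / s := by field_simp
      rw [this]; linarith
    have h5 : 1 - η ≤ τ ^ (s - 1) := by linarith
    have h6 : (1 + x) * (1 - η) ≤ (1 + x) * τ ^ (s - 1) :=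
      mul_le_mul_of_nonneg_left h5 (by linarith)
    refine le_trans ?_ h6
    rw [hη]
    nlinarith
  -- pointwise bound
  have hpt : ∀ y, u ^ (s - 1) * (s * D y - (s - 1) * (u * (if good y then τ else 1)))
      ≤ D y ^ s * w y := by
    intro y
    by_cases hy : good y
    · rw [if_pos hy]
      have h1 := tangent_pow (D y) (u * τ) (hD y) (mul_pos hupos hτpos) s (by omega)
      have h2 : D y ^ s * (1 + x) ≤ D y ^ s * w y :=
        mul_le_mul_of_nonneg_left (hwg y hy) (pow_nonneg (hD y) _)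
      refine le_trans ?_ h2
      by_cases hneg : s * D y - (s - 1) * (u * τ) ≤ 0
      · have h3 : u ^ (s - 1) * (s * D y - (s - 1) * (u * τ)) ≤ 0 :=
          mul_nonpos_of_nonneg_of_nonpos (pow_nonneg hu0 _) hneg
        exact le_trans h3 (mul_nonneg (pow_nonneg (hD y) _) (by linarith))
      · have hneg' : 0 ≤ s * D y - (s - 1) * (u * τ) := (not_le.1 hneg).le
        have h4 : u ^ (s - 1) * (s * D y - (s - 1) * (u * τ))
            ≤ (u * τ) ^ (s - 1) * (s * D y - (s - 1) * (u * τ)) * (1 + x) := by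
          rw [mul_pow]
          have h5 : 0 ≤ u ^ (s - 1) * (s * D y - (s - 1) * (u * τ)) :=
            mul_nonneg (pow_nonneg hu0 _) hneg'
          nlinarith [mul_le_mul_of_nonneg_left hτpow h5]
        refine le_trans h4 ?_
        exact mul_le_mul_of_nonneg_right h1 (by linarith)
    · rw [if_neg hy, mul_one]
      have h1 := tangent_pow (D y) u (hD y) hupos s (by omega)
      refine le_trans h1 ?_
      exact le_mul_of_one_le_right (pow_nonneg (hD y) _) (hw1 y)
  -- sum up
  have hsum : ∑ y, p y * (u ^ (s - 1) * (s * D y - (s - 1) * (u * (if good y then τ else 1))))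
      = u ^ (s - 1) * (s * u - (s - 1) * u * ∑ y, p y * (if good y then τ else 1)) := by
    have : ∀ y, p y * (u ^ (s - 1) * (s * D y - (s - 1) * (u * (if good y then τ else 1))))
        = u ^ (s - 1) * (s * (p y * D y)
          - (s - 1) * u * (p y * (if good y then τ else 1))) := by
      intro y; ring
    simp_rw [this]
    rw [← Finset.mul_sum, Finset.sum_sub_distrib, ← Finset.mul_sum, ← Finset.mul_sum]
  have hτsum : ∑ y, p y * (if good y then τ else 1)
      = 1 - (∑ y, if good y then p y else 0) * (η / s) := by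
    have h1 : (1 : ℝ) - (∑ y, if good y then p y else 0) * (η / s)
        = (∑ y, p y) - (∑ y, if good y then p y else 0) * (η / s) := by rw [hp1]
    rw [h1, Finset.sum_mul, ← Finset.sum_sub_distrib]
    apply Finset.sum_congr rfl
    intro y _
    split_ifs
    · rw [hτ]; ring
    · ring
  have hfin : (∑ y, p y * D y) ^ s * (1 + 3 * x / 16)
      ≤ u ^ (s - 1) * (s * u - (s - 1) * u * ∑ y, p y * (if good y then τ else 1)) := by
    rw [← hu, hτsum]
    have h1 : u ^ s = u ^ (s - 1) * u := by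
      rw [← pow_succ]; congr 1; omega
    rw [h1, mul_assoc]
    apply mul_le_mul_of_nonneg_left _ (pow_nonneg hu0 _)
    have h2 : s * u - (s - 1) * u * (1 - (∑ y, if good y then p y else 0) * (η / s))
        = u * (1 + (s - 1) * (∑ y, if good y then p y else 0) * (η / s)) := by ring
    rw [h2]
    apply mul_le_mul_of_nonneg_left _ hu0
    have h3 : (3 : ℝ) / 4 * ((s - 1) * (η / s))
        ≤ (∑ y, if good y then p y else 0) * ((s - 1) * (η / s)) :=
      mul_le_mul_of_nonneg_right hgood (mul_nonneg (by linarith) hηs0)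
    have h4 : η / 2 ≤ ((s : ℝ) - 1) * (η / s) := by
      have : ((s : ℝ) - 1) * (η / s) = η - η / s := by field_simp
      rw [this]
      have : η / s ≤ η / 2 := by
        apply div_le_div_of_nonneg_left hη0 (by norm_num) hs'
      linarith
    have h5 : 3 * x / 16 = 3 / 4 * (η / 2) := by rw [hη]; ring
    rw [h5]
    have h6 : (s - 1) * (∑ y, if good y then p y else 0) * (η / s)
      = (∑ y, if good y then p y else 0) * ((s - 1) * (η / s)) := by ring
    rw [h6]
    linarith
  refine le_trans hfin ?_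
  rw [← hsum]
  apply Finset.sum_le_sum
  intro y _
  exact mul_le_mul_of_nonneg_left (hpt y) (hp y).le

end Pool.Agent.H25
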