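import Mathlib
import Pool.Agent.H25.Grid3

set_option autoImplicit false
set_option linter.unusedSectionVars false

open Finset

namespace Pool.Agent.H25

variable {V : Type*} [Fintype V] [DecidableEq V] {r : ℕ} {p : V → ℝ} {π : V → Fin r}

/-- Quadratic form of the projection kernel against a function vanishing on one part. -/
theorem quad_lower (hp : ∀ x, 0 < p x) (hp1 : ∑ x, p x = 1) (g : V → ℝ) (hg : ∀ x, 0 ≤ g x)
    (c₀ : Fin r) (hg0 : ∀ x, π x = c₀ → g x = 0) :
    (∑ x, g x) ^ 2 * (1 + mu p π c₀) ≤ ∑ x, ∑ y, psi p π x y * g x * g y := by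
  classical
  set d : Fin r → ℝ := fun c => ∑ x, if π x = c then g x else 0 with hd
  have hd0 : ∀ c, 0 ≤ d c := fun c => Finset.sum_nonneg fun x _ => by
    split_ifs
    · exact hg x
    · exact le_rfl
  have hdc0 : d c₀ = 0 := by
    rw [hd]
    apply Finset.sum_eq_zero
    intro x _
    split_ifs with h
    · exact hg0 x h
    · rfl
  have hsumd : ∑ c, d c = ∑ x, g x := by
    rw [hd]
    rw [Finset.sum_comm]
    apply Finset.sum_congr rfl
    intro x _
    simp
  have hmu0 : ∀ c, 0 ≤ mu p π c := mu_nonneg hp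
  have hmuz : ∀ c, mu p π c = 0 → d c = 0 := by
    intro c hc
    rw [hd]
    apply Finset.sum_eq_zero
    intro x _
    split_ifs with h
    · exfalso
      have := mu_pos (π := π) hp x
      rw [h, hc] at this
      exact lt_irrefl _ this
    · rfl
  -- Q as a sum over parts
  have hQ : ∑ x, ∑ y, psi p π x y * g x * g y = ∑ c, d c ^ 2 / mu p π c := by
    have h1 : ∀ x, ∑ y, psi p π x y * g x * g y
        = ∑ c, if π x = c then g x * d c / mu p π c else 0 := by
      intro x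
      rw [Finset.sum_ite_eq, if_pos (Finset.mem_univ _)]
      rw [hd]
      simp only
      rw [mul_div_assoc, Finset.sum_div, Finset.mul_sum]
      apply Finset.sum_congr rfl
      intro y _
      unfold psi
      by_cases h : π x = π y
      · rw [if_pos h, if_pos h.symm]; field_simp
      · rw [if_neg h, if_neg (fun h' => h h'.symm)]; ring
    simp_rw [h1]
    rw [Finset.sum_comm]
    apply Finset.sum_congr rfl
    intro c _
    have h2 : ∀ x, (if π x = c then g x * d c / mu p π c else 0)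
        = (if π x = c then g x else 0) * (d c / mu p π c) := by
      intro x
      split_ifs
      · ring
      · ring
    simp_rw [h2]
    rw [← Finset.sum_mul]
    rw [sq, mul_div_assoc]
  rw [hQ]
  have hCS : (∑ c ∈ Finset.univ.erase c₀, d c) ^ 2
      ≤ (∑ c ∈ Finset.univ.erase c₀, mu p π c)
        * (∑ c ∈ Finset.univ.erase c₀, d c ^ 2 / mu p π c) := by
    apply Finset.sum_sq_le_sum_mul_sum_of_sq_le_mul
    · intro c _
      exact hmu0 c
    · intro c _
      exact div_nonneg (sq_nonneg _) (hmu0 c)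
    · intro c _
      by_cases h : mu p π c = 0
      · rw [hmuz c h]; simp
      · rw [mul_div_cancel₀ _ h]
  have hL : ∑ c ∈ Finset.univ.erase c₀, d c = ∑ x, g x := by
    rw [← hsumd, ← Finset.add_sum_erase Finset.univ d (Finset.mem_univ c₀), hdc0, zero_add]
  have hM : ∑ c ∈ Finset.univ.erase c₀, mu p π c = 1 - mu p π c₀ := by
    have := Finset.add_sum_erase Finset.univ (mu p π) (Finset.mem_univ c₀)
    rw [sum_mu, hp1] at this
    linarith
  have hQ' : ∑ c ∈ Finset.univ.erase c₀, d c ^ 2 / mu p π c ≤ ∑ c, d c ^ 2 / mu p π c := by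
    apply Finset.sum_le_sum_of_subset_of_nonneg (Finset.erase_subset _ _)
    intro c _ _
    exact div_nonneg (sq_nonneg _) (hmu0 c)
  rw [hL, hM] at hCS
  have hQ0 : 0 ≤ ∑ c, d c ^ 2 / mu p π c :=
    Finset.sum_nonneg fun c _ => div_nonneg (sq_nonneg _) (hmu0 c)
  have hmu1 : 0 ≤ 1 - mu p π c₀ := by
    rw [← hM]
    exact Finset.sum_nonneg fun c _ => hmu0 c
  have hc0 := hmu0 c₀
  calc (∑ x, g x) ^ 2 * (1 + mu p π c₀)
      ≤ ((1 - mu p π c₀) * ∑ c, d c ^ 2 / mu p π c) * (1 + mu p π c₀) := by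
        apply mul_le_mul_of_nonneg_right _ (by linarith)
        exact le_trans hCS (mul_le_mul_of_nonneg_left hQ' hmu1)
    _ = (1 - mu p π c₀ ^ 2) * ∑ c, d c ^ 2 / mu p π c := by ring
    _ ≤ 1 * ∑ c, d c ^ 2 / mu p π c := by
        apply mul_le_mul_of_nonneg_right _ hQ0
        nlinarith
    _ = _ := one_mul _

/-- Most of the mass lies in parts of weight at least `1/(4r)`. -/
theorem good_mass (hr : 0 < r) (hp1 : ∑ x, p x = 1) :
    3 / 4 ≤ ∑ y, if 1 / (4 * (r : ℝ)) ≤ mu p π (π y) then p y else 0 := by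
  have hr' : (0 : ℝ) < r := by exact_mod_cast hr
  have h1 : ∑ y, (if 1 / (4 * (r : ℝ)) ≤ mu p π (π y) then p y else 0)
      = ∑ c, (if 1 / (4 * (r : ℝ)) ≤ mu p π c then 1 else 0) * mu p π c := by
    rw [← sum_comp_part (fun c => if 1 / (4 * (r : ℝ)) ≤ mu p π c then (1 : ℝ) else 0)]
    apply Finset.sum_congr rfl
    intro y _
    split_ifs <;> ring
  rw [h1]
  have h2 : ∀ c, mu p π c - 1 / (4 * (r : ℝ))
      ≤ (if 1 / (4 * (r : ℝ)) ≤ mu p π c then 1 else 0) * mu p π c := by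
    intro c
    split_ifs with h
    · have : 0 ≤ 1 / (4 * (r : ℝ)) := by positivity
      linarith
    · linarith
  refine le_trans ?_ (Finset.sum_le_sum fun c _ => h2 c)
  rw [Finset.sum_sub_distrib, sum_mu, hp1]
  simp only [Finset.sum_const, Finset.card_univ, Fintype.card_fin, nsmul_eq_mul]
  have : (r : ℝ) * (1 / (4 * r)) = 1 / 4 := by field_simp
  rw [this]
  norm_num

/-- The main inequality for `r`-partite kernels. -/
theorem partite_ineq (hr : 0 < r) (hp : ∀ x, 0 < p x) (hp1 : ∑ x, p x = 1)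
    (A : V → V → ℝ) (hA : ∀ x y, 0 ≤ A x y) (hAπ : ∀ x y, π x = π y → A x y = 0)
    (k b m : ℕ) (hk : 0 < k) (hb : 0 < b) (hbr : b ≤ 4 * r) (hm : 2 ≤ m) :
    ((∑ y, p y * ∑ x, p x * A x y) ^ (2 * k * b) * (1 + 3 * (b : ℝ) / (64 * r))) ^ m
      ≤ (1 + (r : ℝ) / (k : ℝ) ^ 2) ^ b *
        ∑ x : Fin b → (Fin k → V) × (Fin k → V),
          (∑ y, p y * ∏ β, ((∏ a, A ((x β).1 a) y) * ∏ a, A ((x β).2 a) y)) ^ m
            * ∏ β, ((∏ a, p ((x β).1 a)) * ∏ a, p ((x β).2 a)) := by
  classical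
  have hr' : (0 : ℝ) < r := by exact_mod_cast hr
  have hk' : (0 : ℝ) < k := by exact_mod_cast hk
  set P2 : (Fin k → V) × (Fin k → V) → ℝ := fun ω => (∏ a, p (ω.1 a)) * ∏ a, p (ω.2 a) with hP2
  set N2 : (Fin k → V) × (Fin k → V) → ℝ := fun ω => nu p π k ω.1 ω.2 with hN2
  set F2 : (Fin k → V) × (Fin k → V) → V → ℝ :=
    fun ω y => (∏ a, A (ω.1 a) y) * ∏ a, A (ω.2 a) y with hF2
  have hP20 : ∀ ω, 0 ≤ P2 ω := fun ω =>
    mul_nonneg (Finset.prod_nonneg fun a _ => (hp _).le) (Finset.prod_nonneg fun a _ => (hp _).le)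
  have hN20 : ∀ ω, 0 ≤ N2 ω := fun ω => nu_nonneg hp k _ _
  have hF20 : ∀ ω y, 0 ≤ F2 ω y := fun ω y =>
    mul_nonneg (Finset.prod_nonneg fun a _ => hA _ _) (Finset.prod_nonneg fun a _ => hA _ _)
  have hmean : ∑ ω, N2 ω * P2 ω = 1 := by
    rw [Fintype.sum_prod_type]
    exact nu_mean hp hp1 k hk
  have hsec : ∑ ω, N2 ω ^ 2 * P2 ω ≤ 1 + (r : ℝ) / (k : ℝ) ^ 2 := by
    rw [Fintype.sum_prod_type]
    exact nu_second hp hp1 k hk
  have hprod : ∀ f : (Fin k → V) × (Fin k → V) → ℝ,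
      ∑ x : Fin b → (Fin k → V) × (Fin k → V), ∏ β, f (x β) = (∑ ω, f ω) ^ b := by
    intro f
    exact (Fintype.sum_pow f b).symm
  -- apply the moment inequality
  have hmom := power_moment
    (fun x : Fin b → (Fin k → V) × (Fin k → V) => ∏ β, P2 (x β))
    (fun x => ∏ β, N2 (x β)) (fun x => ∑ y, p y * ∏ β, F2 (x β) y)
    (fun x => Finset.prod_nonneg fun β _ => hP20 _)
    (fun x => Finset.prod_nonneg fun β _ => hN20 _)
    (fun x => Finset.sum_nonneg fun y _ => mul_nonneg (hp y).le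
      (Finset.prod_nonneg fun β _ => hF20 _ _))
    (by
      simp_rw [← Finset.prod_mul_distrib]
      rw [hprod (fun ω => N2 ω * P2 ω), hmean, one_pow]) m hm
  have hsq : ∑ x : Fin b → (Fin k → V) × (Fin k → V), (∏ β, N2 (x β)) ^ 2 * ∏ β, P2 (x β)
      ≤ (1 + (r : ℝ) / (k : ℝ) ^ 2) ^ b := by
    simp_rw [← Finset.prod_pow, ← Finset.prod_mul_distrib]
    rw [hprod (fun ω => N2 ω ^ 2 * P2 ω)]
    exact pow_le_pow_left₀ (Finset.sum_nonneg fun ω _ => mul_nonneg (sq_nonneg _) (hP20 ω)) hsec b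
  -- the tilted mean
  have htilt : ∑ x : Fin b → (Fin k → V) × (Fin k → V),
      (∏ β, N2 (x β)) * (∏ β, P2 (x β)) * (∑ y, p y * ∏ β, F2 (x β) y)
      = ∑ y, p y * (∑ ω, N2 ω * P2 ω * F2 ω y) ^ b := by
    simp_rw [Finset.mul_sum]
    rw [Finset.sum_comm]
    apply Finset.sum_congr rfl
    intro y _
    rw [← hprod (fun ω => N2 ω * P2 ω * F2 ω y), Finset.mul_sum]
    apply Finset.sum_congr rfl
    intro x _
    have e1 : ∏ β, N2 (x β) * P2 (x β) * F2 (x β) y
        = (∏ β, N2 (x β)) * (∏ β, P2 (x β)) * ∏ β, F2 (x β) y := by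
      rw [Finset.prod_mul_distrib (f := fun β => N2 (x β) * P2 (x β))
        (g := fun β => F2 (x β) y), Finset.prod_mul_distrib (f := fun β => N2 (x β))
        (g := fun β => P2 (x β))]
    rw [e1]
    generalize (∏ β, N2 (x β)) = X1
    generalize (∏ β, P2 (x β)) = X2
    generalize (∏ β, F2 (x β) y) = X3
    ring
  set D : V → ℝ := fun y => ∑ x, p x * A x y with hD
  have hD0 : ∀ y, 0 ≤ D y := fun y =>
    Finset.sum_nonneg fun x _ => mul_nonneg (hp x).le (hA x y)
  have hω : ∀ y, D y ^ (2 * k) * (1 + mu p π (π y)) ≤ ∑ ω, N2 ω * P2 ω * F2 ω y := by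
    intro y
    have h1 : ∑ ω, N2 ω * P2 ω * F2 ω y
        = ∑ u : Fin k → V, ∑ v : Fin k → V, nu p π k u v
          * ((∏ a, (p (u a) * A (u a) y)) * ∏ a, (p (v a) * A (v a) y)) := by
      rw [Fintype.sum_prod_type]
      apply Finset.sum_congr rfl
      intro u _
      apply Finset.sum_congr rfl
      intro v _
      rw [hN2, hP2, hF2]
      simp only
      rw [Finset.prod_mul_distrib, Finset.prod_mul_distrib]
      ring
    rw [h1, nu_first k hk (fun x => p x * A x y)]
    have h2 := quad_lower (π := π) hp hp1 (fun x => p x * A x y)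
      (fun x => mul_nonneg (hp x).le (hA x y)) (π y)
      (fun x hx => by rw [hAπ x y hx, mul_zero])
    have h3 : D y ^ (2 * k) = D y ^ (2 * (k - 1)) * D y ^ 2 := by
      rw [← pow_add]; congr 1; omega
    rw [h3, mul_assoc]
    exact mul_le_mul_of_nonneg_left h2 (pow_nonneg (hD0 y) _)
  have hlow : (∑ y, p y * D y) ^ (2 * k * b) * (1 + 3 * (b : ℝ) / (64 * r))
      ≤ ∑ y, p y * (∑ ω, N2 ω * P2 ω * F2 ω y) ^ b := by
    have hx1 : (b : ℝ) / (4 * r) ≤ 1 := by
      rw [div_le_one (by positivity)]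
      exact_mod_cast hbr
    have h1 := weighted_power p D (fun y => (1 + mu p π (π y)) ^ b)
      (fun y => 1 / (4 * (r : ℝ)) ≤ mu p π (π y)) hp hp1 hD0 ((b : ℝ) / (4 * r))
      (by positivity) hx1
      (fun y => one_le_pow₀ (by linarith [mu_nonneg (π := π) hp (π y)]))
      (fun y hy => by
        have h2 := one_add_mul_le_pow
          (show (-2 : ℝ) ≤ mu p π (π y) by linarith [mu_nonneg (π := π) hp (π y)]) b
        refine le_trans ?_ h2
        have h3 : (b : ℝ) / (4 * r) = b * (1 / (4 * r)) := by ring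
        rw [h3]
        have := mul_le_mul_of_nonneg_left hy (Nat.cast_nonneg' (α := ℝ) b)
        linarith)
      (good_mass hr hp1) (2 * k * b)
      (by
        have : 1 ≤ k * b := Nat.mul_pos hk hb
        nlinarith)
    have h4 : 1 + 3 * ((b : ℝ) / (4 * r)) / 16 = 1 + 3 * (b : ℝ) / (64 * r) := by
      field_simp
      ring
    rw [h4] at h1
    refine le_trans h1 ?_
    apply Finset.sum_le_sum
    intro y _
    apply mul_le_mul_of_nonneg_left _ (hp y).le
    rw [pow_mul, ← mul_pow]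
    apply pow_le_pow_left₀ _ (hω y)
    exact mul_nonneg (pow_nonneg (hD0 y) _) (by linarith [mu_nonneg (π := π) hp (π y)])
  calc ((∑ y, p y * D y) ^ (2 * k * b) * (1 + 3 * (b : ℝ) / (64 * r))) ^ m
      ≤ (∑ y, p y * (∑ ω, N2 ω * P2 ω * F2 ω y) ^ b) ^ m := by
        apply pow_le_pow_left₀ _ hlow
        apply mul_nonneg
        · exact pow_nonneg (Finset.sum_nonneg fun y _ => mul_nonneg (hp y).le (hD0 y)) _
        · positivity
    _ = (∑ x : Fin b → (Fin k → V) × (Fin k → V),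
      (∏ β, N2 (x β)) * (∏ β, P2 (x β)) * (∑ y, p y * ∏ β, F2 (x β) y)) ^ m := by rw [htilt]
    _ ≤ _ := hmom
    _ ≤ _ := by
        apply mul_le_mul_of_nonneg_right hsq
        apply Finset.sum_nonneg
        intro x _
        apply mul_nonneg
        · apply pow_nonneg
          exact Finset.sum_nonneg fun y _ => mul_nonneg (hp y).le
            (Finset.prod_nonneg fun β _ => hF20 _ _)
        · exact Finset.prod_nonneg fun β _ => hP20 _

end Pool.Agent.H25
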