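import Mathlib
import Pool.Agent.H25.Grid4

set_option autoImplicit false
set_option linter.unusedSectionVars false

open Finset

namespace Pool.Agent.H25

variable {J V : Type*} [Fintype J] [DecidableEq J] [Fintype V] [DecidableEq V] {r : ℕ}

/-- Two distinct columns have an `r`-colourable agreement graph. -/
def Separated (col : J → V → V → Fin r) : Prop :=
  ∀ j j', j ≠ j' → ∃ π : V → Fin r, ∀ x y, x ≠ y → col j x y = col j' x y → π x ≠ π y

theorem count_agree (col : J → V → V → Fin r) (hs : ∀ j x y, col j x y = col j y x)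
    (hH : Separated col) {X Y : Type*} [Fintype X] [DecidableEq X] [Fintype Y] [DecidableEq Y]
    (hcard : r < Fintype.card X + Fintype.card Y) (z : X ⊕ Y → V) (hz : Function.Injective z)
    (j : J) :
    (Finset.univ.filter (fun j' : J => ∀ i l, col j' (z (Sum.inl i)) (z (Sum.inr l))
        = col j (z (Sum.inl i)) (z (Sum.inr l)))).card
      ≤ r ^ ((Fintype.card X).choose 2 + (Fintype.card Y).choose 2) := by
  classical
  let fX : J → ({e : Sym2 X // ¬ e.IsDiag} → Fin r) := fun j' e =>
    Sym2.lift ⟨fun a b => col j' (z (Sum.inl a)) (z (Sum.inl b)), fun a b => hs _ _ _⟩ e.1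
  let fY : J → ({e : Sym2 Y // ¬ e.IsDiag} → Fin r) := fun j' e =>
    Sym2.lift ⟨fun a b => col j' (z (Sum.inr a)) (z (Sum.inr b)), fun a b => hs _ _ _⟩ e.1
  have hc : Fintype.card (({e : Sym2 X // ¬ e.IsDiag} → Fin r) ×
      ({e : Sym2 Y // ¬ e.IsDiag} → Fin r))
      = r ^ ((Fintype.card X).choose 2 + (Fintype.card Y).choose 2) := by
    rw [Fintype.card_prod, Fintype.card_fun, Fintype.card_fun, Sym2.card_subtype_not_diag,
      Sym2.card_subtype_not_diag, Fintype.card_fin, pow_add]
  rw [← hc, ← Finset.card_univ]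
  apply Finset.card_le_card_of_injOn (fun j' => (fX j', fY j'))
  · intro x _
    exact Finset.mem_coe.2 (Finset.mem_univ _)
  · intro j₁ h₁ j₂ h₂ h12
    rw [Finset.mem_coe, Finset.mem_filter] at h₁ h₂
    by_contra hne
    obtain ⟨π, hπ⟩ := hH j₁ j₂ hne
    obtain ⟨a, b, hab, heq⟩ := Fintype.exists_ne_map_eq_of_card_lt (fun a => π (z a))
      (by rw [Fintype.card_fin, Fintype.card_sum]; exact hcard)
    have hzab : z a ≠ z b := fun h => hab (hz h)
    have hXeq : fX j₁ = fX j₂ := (Prod.mk.inj h12).1
    have hYeq : fY j₁ = fY j₂ := (Prod.mk.inj h12).2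
    have hcol : col j₁ (z a) (z b) = col j₂ (z a) (z b) := by
      rcases a with a | a <;> rcases b with b | b
      · have hne' : a ≠ b := fun h => hab (by rw [h])
        have := congrFun hXeq ⟨s(a, b), by simpa using hne'⟩
        simpa [fX] using this
      · rw [h₁.2 a b, h₂.2 a b]
      · rw [hs j₁, hs j₂, h₁.2 b a, h₂.2 b a]
      · have hne' : a ≠ b := fun h => hab (by rw [h])
        have := congrFun hYeq ⟨s(a, b), by simpa using hne'⟩
        simpa [fY] using this
    exact hπ _ _ hzab hcol heq

/-- Indicator of agreement of columns `j`, `j'` on the vertical edge `x y`. -/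
def agr (col : J → V → V → Fin r) (j j' : J) (x y : V) : ℝ :=
  if x ≠ y ∧ col j x y = col j' x y then 1 else 0

theorem agr_nonneg (col : J → V → V → Fin r) (j j' : J) (x y : V) : 0 ≤ agr col j j' x y := by
  unfold agr
  split_ifs <;> norm_num

theorem agr_le_one (col : J → V → V → Fin r) (j j' : J) (x y : V) : agr col j j' x y ≤ 1 := by
  unfold agr
  split_ifs <;> norm_num

/-- Product over a complete bipartite pattern. -/
noncomputable def pat (col : J → V → V → Fin r) {X Y : Type*} [Fintype X] [Fintype Y]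
    (j j' : J) (z : X ⊕ Y → V) : ℝ :=
  ∏ l : Y, ∏ i : X, agr col j j' (z (Sum.inl i)) (z (Sum.inr l))

theorem pat_nonneg (col : J → V → V → Fin r) {X Y : Type*} [Fintype X] [Fintype Y]
    (j j' : J) (z : X ⊕ Y → V) : 0 ≤ pat col j j' z :=
  Finset.prod_nonneg fun _ _ => Finset.prod_nonneg fun _ _ => agr_nonneg _ _ _ _ _

theorem pat_le_one (col : J → V → V → Fin r) {X Y : Type*} [Fintype X] [Fintype Y]
    (j j' : J) (z : X ⊕ Y → V) : pat col j j' z ≤ 1 :=
  Finset.prod_le_one (fun _ _ => Finset.prod_nonneg fun _ _ => agr_nonneg _ _ _ _ _)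
    fun _ _ => Finset.prod_le_one (fun _ _ => agr_nonneg _ _ _ _ _) fun _ _ => agr_le_one _ _ _ _ _

theorem pat_le_ind (col : J → V → V → Fin r) {X Y : Type*} [Fintype X] [Fintype Y]
    [DecidableEq X] [DecidableEq Y]
    (j j' : J) (z : X ⊕ Y → V) :
    pat col j j' z ≤ if (∀ i l, col j' (z (Sum.inl i)) (z (Sum.inr l))
        = col j (z (Sum.inl i)) (z (Sum.inr l))) then 1 else 0 := by
  split_ifs with h
  · exact pat_le_one _ _ _ _
  · push Not at h
    obtain ⟨i, l, hil⟩ := h
    apply le_of_eq
    unfold pat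
    apply Finset.prod_eq_zero (Finset.mem_univ l)
    apply Finset.prod_eq_zero (Finset.mem_univ i)
    unfold agr
    rw [if_neg]
    rintro ⟨_, h2⟩
    exact hil h2.symm

theorem sum_pat_inj (col : J → V → V → Fin r) (hs : ∀ j x y, col j x y = col j y x)
    (hH : Separated col) {X Y : Type*} [Fintype X] [DecidableEq X] [Fintype Y] [DecidableEq Y]
    (hcard : r < Fintype.card X + Fintype.card Y) (z : X ⊕ Y → V) (hz : Function.Injective z) :
    ∑ j, ∑ j', pat col j j' z
      ≤ (Fintype.card J : ℝ) *
        (r : ℝ) ^ ((Fintype.card X).choose 2 + (Fintype.card Y).choose 2) := by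
  classical
  have h1 : ∀ j, ∑ j', pat col j j' z
      ≤ (r : ℝ) ^ ((Fintype.card X).choose 2 + (Fintype.card Y).choose 2) := by
    intro j
    refine le_trans (Finset.sum_le_sum fun j' _ => pat_le_ind col j j' z) ?_
    rw [Finset.sum_boole]
    exact_mod_cast count_agree col hs hH hcard z hz j
  refine le_trans (Finset.sum_le_sum fun j _ => h1 j) ?_
  rw [Finset.sum_const, Finset.card_univ, nsmul_eq_mul]

theorem card_not_injective {I : Type*} [Fintype I] [DecidableEq I]
    (hI : Fintype.card I = r + 1) :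
    ((Finset.univ.filter (fun z : I → V => ¬ Function.Injective z)).card : ℝ)
      ≤ (r : ℝ) * (r + 1) * (Fintype.card V : ℝ) ^ r := by
  classical
  set n := Fintype.card V with hn
  have hinj : (Finset.univ.filter (fun z : I → V => Function.Injective z)).card
      = n.descFactorial (r + 1) := by
    rw [← Fintype.card_subtype, ← hI, hn, ← Fintype.card_embedding_eq]
    exact Fintype.card_congr (Equiv.subtypeInjectiveEquivEmbedding I V)
  have htot := Finset.card_filter_add_card_filter_not (s := (Finset.univ : Finset (I → V)))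
    (fun z : I → V => Function.Injective z)
  rw [Finset.card_univ, Fintype.card_fun, hI, hinj, ← hn] at htot
  have hd := Nat.pow_sub_le_descFactorial n (r + 1)
  rw [Nat.add_sub_add_right] at hd
  have htot' : (n.descFactorial (r + 1) : ℝ)
      + ((Finset.univ.filter (fun z : I → V => ¬ Function.Injective z)).card : ℝ)
      = (n : ℝ) ^ (r + 1) := by exact_mod_cast htot
  have hd' : ((n - r : ℕ) : ℝ) ^ (r + 1) ≤ (n.descFactorial (r + 1) : ℝ) := by exact_mod_cast hd
  have hbern : (n : ℝ) ^ (r + 1) - (r : ℝ) * (r + 1) * (n : ℝ) ^ r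
      ≤ ((n - r : ℕ) : ℝ) ^ (r + 1) := by
    by_cases hnr : r ≤ n
    · rcases Nat.eq_zero_or_pos n with h0 | hpos
      · have hr0 : r = 0 := by omega
        rw [h0, hr0]; simp
      · have hnpos : (0 : ℝ) < n := by exact_mod_cast hpos
        have hle : (r : ℝ) / n ≤ 1 := by
          rw [div_le_one hnpos]; exact_mod_cast hnr
        have h1 := one_add_mul_le_pow (show (-2 : ℝ) ≤ -((r : ℝ) / n) by linarith) (r + 1)
        have h2 : ((n - r : ℕ) : ℝ) = n * (1 + -((r : ℝ) / n)) := by
          rw [Nat.cast_sub hnr]; field_simp; ring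
        rw [h2, mul_pow]
        have h3 := mul_le_mul_of_nonneg_left h1 (pow_nonneg hnpos.le (r + 1))
        refine le_trans (le_of_eq ?_) h3
        push_cast
        rw [pow_succ]
        field_simp
        ring
    · have hlt : n < r := not_le.1 hnr
      have h1 : (n - r : ℕ) = 0 := by omega
      rw [h1]
      simp only [Nat.cast_zero]
      rw [zero_pow (by omega), sub_nonpos, pow_succ]
      have h2 : (n : ℝ) ≤ (r : ℝ) * (r + 1) := by
        have : (n : ℝ) ≤ r := by exact_mod_cast hlt.le
        nlinarith [(Nat.cast_nonneg r : (0 : ℝ) ≤ r)]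
      rw [mul_comm]
      exact mul_le_mul_of_nonneg_right h2 (pow_nonneg (Nat.cast_nonneg _) _)
  linarith

end Pool.Agent.H25
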