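import Mathlib
import Pool.Agent.H25.Grid5

set_option autoImplicit false
set_option linter.unusedSectionVars false

open Finset

namespace Pool.Agent.H25

variable {J V : Type*} [Fintype J] [DecidableEq J] [Fintype V] [DecidableEq V] {r : ℕ}

/-- The reindexing of tuples of rows. -/
def tupEquiv (V : Type*) (b k m : ℕ) : ((Fin b × (Fin k ⊕ Fin k)) ⊕ Fin m → V) ≃
    (Fin b → (Fin k → V) × (Fin k → V)) × (Fin m → V) :=
  (Equiv.sumArrowEquivProdArrow _ _ _).trans
    (Equiv.prodCongr ((Equiv.curry _ _ _).trans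
      (Equiv.piCongrRight fun _ => Equiv.sumArrowEquivProdArrow _ _ _)) (Equiv.refl _))

theorem expand_pow (A : V → V → ℝ) (q : ℝ) (b k m : ℕ) :
    ∑ x : Fin b → (Fin k → V) × (Fin k → V),
      (∑ y, q * ∏ β, ((∏ a, A ((x β).1 a) y) * ∏ a, A ((x β).2 a) y)) ^ m
            * ∏ _β : Fin b, ((∏ _a : Fin k, q) * ∏ _a : Fin k, q)
      = q ^ (2 * k * b + m) * ∑ z : (Fin b × (Fin k ⊕ Fin k)) ⊕ Fin m → V,
        ∏ l : Fin m, ∏ i : Fin b × (Fin k ⊕ Fin k), A (z (Sum.inl i)) (z (Sum.inr l)) := by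
  classical
  have h1 : ∀ x : Fin b → (Fin k → V) × (Fin k → V),
      (∑ y, q * ∏ β, ((∏ a, A ((x β).1 a) y) * ∏ a, A ((x β).2 a) y)) ^ m
            * ∏ _β : Fin b, ((∏ _a : Fin k, q) * ∏ _a : Fin k, q)
      = ∑ y : Fin m → V, q ^ (2 * k * b + m) *
        ∏ l, ∏ β, ((∏ a, A ((x β).1 a) (y l)) * ∏ a, A ((x β).2 a) (y l)) := by
    intro x
    rw [Fintype.sum_pow, Finset.sum_mul]
    apply Finset.sum_congr rfl
    intro y _
    rw [Finset.prod_mul_distrib]
    simp only [Finset.prod_const, Finset.card_univ, Fintype.card_fin]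
    rw [← pow_add, ← pow_mul, pow_add]
    have : (k + k) * b = 2 * k * b := by ring
    rw [this]
    ring
  simp_rw [h1]
  rw [Finset.mul_sum, ← Fintype.sum_prod_type']
  symm
  apply Fintype.sum_equiv (tupEquiv V b k m)
  intro z
  congr 1
  apply Finset.prod_congr rfl
  intro l _
  rw [Fintype.prod_prod_type]
  apply Finset.prod_congr rfl
  intro β _
  rw [Fintype.prod_sum_type]
  rfl

theorem agree_sum (col : J → V → V → Fin r) (hr : 0 < r) :
    (Fintype.card V : ℝ) * ((Fintype.card V : ℝ) - 1) * (Fintype.card J : ℝ) ^ 2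
      ≤ r * ∑ j, ∑ j', ∑ y, ∑ x, agr col j j' x y := by
  classical
  have hr' : (0 : ℝ) < r := by exact_mod_cast hr
  have h1 : ∀ x y : V, x ≠ y → (Fintype.card J : ℝ) ^ 2 ≤ r * ∑ j, ∑ j', agr col j j' x y := by
    intro x y hxy
    have h2 : ∑ j, ∑ j', agr col j j' x y
        = ∑ c : Fin r, (∑ j, if col j x y = c then (1 : ℝ) else 0) ^ 2 := by
      have h3 : ∀ c : Fin r, (∑ j, if col j x y = c then (1 : ℝ) else 0) ^ 2
          = ∑ j, ∑ j', if col j x y = c ∧ col j' x y = c then (1 : ℝ) else 0 := by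
        intro c
        rw [sq, Finset.sum_mul_sum]
        apply Finset.sum_congr rfl
        intro j _
        apply Finset.sum_congr rfl
        intro j' _
        by_cases h4 : col j x y = c <;> by_cases h5 : col j' x y = c <;> simp [h4, h5]
      simp_rw [h3]
      conv_rhs => rw [Finset.sum_comm]
      apply Finset.sum_congr rfl
      intro j _
      conv_rhs => rw [Finset.sum_comm]
      apply Finset.sum_congr rfl
      intro j' _
      unfold agr
      by_cases h6 : col j x y = col j' x y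
      · rw [if_pos ⟨hxy, h6⟩, Finset.sum_eq_single (col j x y)]
        · rw [if_pos ⟨rfl, h6.symm⟩]
        · intro c _ hc
          rw [if_neg]
          rintro ⟨h7, _⟩
          exact hc h7.symm
        · intro h
          exact absurd (Finset.mem_univ _) h
      · rw [if_neg (fun h => h6 h.2)]
        symm
        apply Finset.sum_eq_zero
        intro c _
        rw [if_neg]
        rintro ⟨h7, h8⟩
        exact h6 (h7.trans h8.symm)
    rw [h2]
    have h4 := sq_sum_le_card_mul_sum_sq (s := (Finset.univ : Finset (Fin r)))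
      (f := fun c => ∑ j, if col j x y = c then (1 : ℝ) else 0)
    have h5 : ∑ c : Fin r, (∑ j, if col j x y = c then (1 : ℝ) else 0) = Fintype.card J := by
      rw [Finset.sum_comm]
      simp
    rw [h5] at h4
    simpa using h4
  have h6 : ∑ j, ∑ j', ∑ y, ∑ x, agr col j j' x y = ∑ y, ∑ x, ∑ j, ∑ j', agr col j j' x y := by
    have e1 : ∀ j, ∑ j', ∑ y, ∑ x, agr col j j' x y = ∑ y, ∑ x, ∑ j', agr col j j' x y := by
      intro j
      rw [Finset.sum_comm]
      apply Finset.sum_congr rfl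
      intro y _
      rw [Finset.sum_comm]
    simp_rw [e1]
    rw [Finset.sum_comm]
    apply Finset.sum_congr rfl
    intro y _
    rw [Finset.sum_comm]
  rw [h6, Finset.mul_sum]
  have h7 : ∀ y : V, ((Fintype.card V : ℝ) - 1) * (Fintype.card J : ℝ) ^ 2
      ≤ r * ∑ x, ∑ j, ∑ j', agr col j j' x y := by
    intro y
    rw [Finset.mul_sum, ← Finset.add_sum_erase Finset.univ _ (Finset.mem_univ y)]
    have h8 : ∑ x ∈ Finset.univ.erase y, (Fintype.card J : ℝ) ^ 2
        ≤ ∑ x ∈ Finset.univ.erase y, r * ∑ j, ∑ j', agr col j j' x y :=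
      Finset.sum_le_sum fun x hx => h1 x y (Finset.ne_of_mem_erase hx)
    rw [Finset.sum_const, Finset.card_erase_of_mem (Finset.mem_univ y), Finset.card_univ,
      nsmul_eq_mul, Nat.cast_sub (Fintype.card_pos_iff.2 ⟨y⟩)] at h8
    have h9 : 0 ≤ r * ∑ j, ∑ j', agr col j j' y y :=
      mul_nonneg hr'.le (Finset.sum_nonneg fun _ _ => Finset.sum_nonneg fun _ _ =>
        agr_nonneg _ _ _ _ _)
    push_cast at h8
    linarith
  refine le_trans (le_of_eq ?_) (Finset.sum_le_sum fun y _ => h7 y)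
  rw [Finset.sum_const, Finset.card_univ, nsmul_eq_mul]
  ring

/-- Main counting bound. -/
theorem main_bound (col : J → V → V → Fin r) (hs : ∀ j x y, col j x y = col j y x)
    (hH : Separated col) (hr : 0 < r) (n : ℕ) (hn : 0 < n) (hJ : Fintype.card J = n)
    (hV : Fintype.card V = n) (k b m : ℕ) (hk : 0 < k) (hb : 0 < b) (hbr : b ≤ 4 * r)
    (hm : 2 ≤ m) (hrk : 2 * k * b + m = r + 1) :
    (1 + 3 * (b : ℝ) / (64 * r)) ^ m * ((n : ℝ) - (2 * k * b * m : ℕ) * (r + 1))
      ≤ (1 + (r : ℝ) / (k : ℝ) ^ 2) ^ b * ((r : ℝ) ^ ((r + 1).choose 2)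
        + r * (r + 1) * (r : ℝ) ^ (2 * k * b * m)) := by
  classical
  have hn' : (0 : ℝ) < n := by exact_mod_cast hn
  have hr' : (0 : ℝ) < r := by exact_mod_cast hr
  have hk' : (0 : ℝ) < k := by exact_mod_cast hk
  set q : ℕ := 2 * k * b * m with hq
  have hqpos : 0 < q := by
    rw [hq]; positivity
  set G : ℝ := (1 + 3 * (b : ℝ) / (64 * r)) ^ m with hG
  set C : ℝ := (1 + (r : ℝ) / (k : ℝ) ^ 2) ^ b with hC
  have hG0 : 0 < G := by rw [hG]; positivity
  have hC0 : 0 < C := by rw [hC]; positivity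
  set R0 : ℝ := (r : ℝ) ^ ((2 * k * b).choose 2 + m.choose 2) with hR0
  set u : J → J → ℝ := fun j j' => ∑ y, (1 / (n : ℝ)) * ∑ x, (1 / (n : ℝ)) * agr col j j' x y
    with hu
  have hu0 : ∀ j j', 0 ≤ u j j' := fun j j' =>
    Finset.sum_nonneg fun y _ => mul_nonneg (by positivity) (Finset.sum_nonneg fun x _ =>
      mul_nonneg (by positivity) (agr_nonneg _ _ _ _ _))
  have hcardI : Fintype.card ((Fin b × (Fin k ⊕ Fin k)) ⊕ Fin m) = r + 1 := by
    simp only [Fintype.card_sum, Fintype.card_prod, Fintype.card_fin]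
    rw [← hrk]; ring
  have hcardX : Fintype.card (Fin b × (Fin k ⊕ Fin k)) = 2 * k * b := by
    simp only [Fintype.card_sum, Fintype.card_prod, Fintype.card_fin]
    ring
  -- each pair of distinct columns
  have hpair : ∀ j j', j ≠ j' → G * u j j' ^ q
      ≤ C * ((1 / (n : ℝ)) ^ (r + 1) *
        ∑ z : (Fin b × (Fin k ⊕ Fin k)) ⊕ Fin m → V, pat col j j' z) := by
    intro j j' hjj
    obtain ⟨π, hπ⟩ := hH j j' hjj
    have h1 := partite_ineq (p := fun _ : V => 1 / (n : ℝ)) (π := π) hr
      (fun _ => by positivity)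
      (by rw [Finset.sum_const, Finset.card_univ, hV, nsmul_eq_mul]; field_simp)
      (agr col j j') (agr_nonneg col j j')
      (fun x y hxy => by
        unfold agr
        rw [if_neg]
        rintro ⟨h2, h3⟩
        exact hπ x y h2 h3 hxy) k b m hk hb hbr hm
    rw [expand_pow, hrk] at h1
    have h2 : (((∑ y, 1 / (n : ℝ) * ∑ x, 1 / (n : ℝ) * agr col j j' x y) ^ (2 * k * b)
        * (1 + 3 * (b : ℝ) / (64 * r))) ^ m) = G * u j j' ^ q := by
      rw [mul_pow, ← pow_mul, hG, hq, hu]
      ring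
    rw [h2] at h1
    exact h1
  -- sum over pairs
  set f : J × J → ℝ := fun s => if s.1 = s.2 then 0 else u s.1 s.2 with hf
  have hf0 : ∀ s, 0 ≤ f s := by
    intro s
    rw [hf]
    dsimp only
    split_ifs
    · exact le_rfl
    · exact hu0 _ _
  have hsum1 : G * ∑ s, f s ^ q ≤ C * ((1 / (n : ℝ)) ^ (r + 1) *
      ∑ z : (Fin b × (Fin k ⊕ Fin k)) ⊕ Fin m → V, ∑ j, ∑ j', pat col j j' z) := by
    have h1 : ∀ s : J × J, G * f s ^ q ≤ C * ((1 / (n : ℝ)) ^ (r + 1) *
        ∑ z : (Fin b × (Fin k ⊕ Fin k)) ⊕ Fin m → V, pat col s.1 s.2 z) := by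
      intro s
      by_cases h : s.1 = s.2
      · have : f s = 0 := by rw [hf]; simp [h]
        rw [this, zero_pow hqpos.ne', mul_zero]
        apply mul_nonneg hC0.le
        apply mul_nonneg (by positivity)
        exact Finset.sum_nonneg fun z _ => pat_nonneg _ _ _ _
      · have : f s = u s.1 s.2 := by rw [hf]; simp [h]
        rw [this]
        exact hpair _ _ h
    calc G * ∑ s, f s ^ q = ∑ s, G * f s ^ q := by rw [Finset.mul_sum]
      _ ≤ ∑ s : J × J, C * ((1 / (n : ℝ)) ^ (r + 1) *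
        ∑ z : (Fin b × (Fin k ⊕ Fin k)) ⊕ Fin m → V, pat col s.1 s.2 z) :=
          Finset.sum_le_sum fun s _ => h1 s
      _ = _ := by
          rw [← Finset.mul_sum, ← Finset.mul_sum]
          congr 2
          rw [Finset.sum_comm]
          apply Finset.sum_congr rfl
          intro z _
          rw [Fintype.sum_prod_type]
  -- upper bound of the total
  have hsum2 : ∑ z : (Fin b × (Fin k ⊕ Fin k)) ⊕ Fin m → V, ∑ j, ∑ j', pat col j j' z
      ≤ (n : ℝ) ^ (r + 1) * (n * R0) + (r * (r + 1) * (n : ℝ) ^ r) * (n : ℝ) ^ 2 := by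
    have h1 : ∀ z : (Fin b × (Fin k ⊕ Fin k)) ⊕ Fin m → V, ∑ j, ∑ j', pat col j j' z
        ≤ n * R0 + (if ¬ Function.Injective z then (1 : ℝ) else 0) * (n : ℝ) ^ 2 := by
      intro z
      by_cases hz : Function.Injective z
      · rw [if_neg (not_not.2 hz), zero_mul, add_zero]
        have := sum_pat_inj col hs hH (by
          rw [← Fintype.card_sum, hcardI]; omega) z hz
        rw [hcardX, Fintype.card_fin, hJ] at this
        exact this
      · rw [if_pos hz, one_mul]
        have h2 : ∑ j, ∑ j', pat col j j' z ≤ ∑ _j : J, ∑ _j' : J, (1 : ℝ) :=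
          Finset.sum_le_sum fun j _ => Finset.sum_le_sum fun j' _ => pat_le_one _ _ _ _
        simp only [Finset.sum_const, Finset.card_univ, nsmul_eq_mul, hJ] at h2
        have h3 : 0 ≤ (n : ℝ) * R0 := by positivity
        nlinarith
    refine le_trans (Finset.sum_le_sum fun z _ => h1 z) ?_
    rw [Finset.sum_add_distrib, Finset.sum_const, Finset.card_univ, Fintype.card_fun, hcardI, hV,
      nsmul_eq_mul, ← Finset.sum_mul, Finset.sum_boole]
    have h4 := card_not_injective (V := V) hcardI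
    rw [hV] at h4
    push_cast
    have h5 : (0 : ℝ) ≤ (n : ℝ) ^ 2 := by positivity
    have h6 := mul_le_mul_of_nonneg_right h4 h5
    linarith
  have hsum3 : G * ∑ s, f s ^ q ≤ C * (n * (R0 + r * (r + 1))) := by
    refine le_trans hsum1 ?_
    apply mul_le_mul_of_nonneg_left _ hC0.le
    refine le_trans (mul_le_mul_of_nonneg_left hsum2 (by positivity)) ?_
    apply le_of_eq
    have : (n : ℝ) ^ (r + 1) ≠ 0 := by positivity
    rw [one_div, inv_pow]
    field_simp
    ring
  -- lower bound via Jensen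
  have hfsum : (n : ℝ) ^ 2 * ((1 - (r + 1) / n) / r) ≤ ∑ s, f s := by
    have h1 := agree_sum col hr
    rw [hV, hJ] at h1
    have h2 : ∑ j, ∑ j', u j j' = (1 / (n : ℝ)) ^ 2 * ∑ j, ∑ j', ∑ y, ∑ x, agr col j j' x y := by
      rw [Finset.mul_sum]
      apply Finset.sum_congr rfl
      intro j _
      rw [Finset.mul_sum]
      apply Finset.sum_congr rfl
      intro j' _
      rw [Finset.mul_sum, hu]
      apply Finset.sum_congr rfl
      intro y _
      rw [Finset.mul_sum, Finset.mul_sum]
      apply Finset.sum_congr rfl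
      intro x _
      ring
    have h3 : ∀ j j', u j j' ≤ 1 := by
      intro j j'
      have : u j j' ≤ ∑ _y : V, (1 / (n : ℝ)) * ∑ _x : V, (1 / (n : ℝ)) * 1 := by
        apply Finset.sum_le_sum
        intro y _
        apply mul_le_mul_of_nonneg_left _ (by positivity)
        apply Finset.sum_le_sum
        intro x _
        exact mul_le_mul_of_nonneg_left (agr_le_one _ _ _ _ _) (by positivity)
      refine le_trans this (le_of_eq ?_)
      simp only [Finset.sum_const, Finset.card_univ, nsmul_eq_mul, hV]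
      field_simp
    have h4 : ∑ s, f s = ∑ j, ∑ j', u j j' - ∑ j, u j j := by
      rw [Fintype.sum_prod_type, ← Finset.sum_sub_distrib]
      apply Finset.sum_congr rfl
      intro j _
      rw [hf]
      simp only
      rw [← Finset.add_sum_erase Finset.univ (fun j' => u j j') (Finset.mem_univ j),
        ← Finset.add_sum_erase Finset.univ (fun j' => if j = j' then 0 else u j j')
          (Finset.mem_univ j)]
      simp only [if_true, zero_add, add_sub_cancel_left]
      apply Finset.sum_congr rfl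
      intro j' hj'
      rw [if_neg (Ne.symm (Finset.ne_of_mem_erase hj'))]
    have h5 : ∑ j, u j j ≤ n := by
      refine le_trans (Finset.sum_le_sum fun j _ => h3 j j) ?_
      simp [hJ]
    have h6 : (n : ℝ) * (n - 1) / r ≤ ∑ j, ∑ j', u j j' := by
      rw [h2, div_le_iff₀ hr']
      have h7 : (n : ℝ) * (n - 1) = (1 / (n : ℝ)) ^ 2 * (n * (n - 1) * (n : ℝ) ^ 2) := by
        field_simp
      rw [h7]
      have := mul_le_mul_of_nonneg_left h1 (show 0 ≤ (1 / (n : ℝ)) ^ 2 by positivity)
      linarith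
    rw [h4]
    have h8 : (n : ℝ) ^ 2 * ((1 - (r + 1) / n) / r) = (n : ℝ) * (n - 1) / r - n := by
      field_simp
      ring
    rw [h8]
    linarith
  by_cases hnr : (r : ℝ) + 1 ≤ n
  · have hW0 : 0 ≤ (1 - ((r : ℝ) + 1) / n) / r := by
      apply div_nonneg _ hr'.le
      rw [sub_nonneg, div_le_one hn']
      exact hnr
    have hJen := pow_sum_div_card_le_sum_pow (s := (Finset.univ : Finset (J × J))) (f := f)
      (fun s _ => hf0 s) (q - 1)
    rw [Nat.sub_add_cancel hqpos] at hJen
    have hcardJJ : ((Finset.univ : Finset (J × J)).card : ℝ) = (n : ℝ) ^ 2 := by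
      rw [Finset.card_univ, Fintype.card_prod, hJ]; push_cast; ring
    rw [hcardJJ] at hJen
    have h1 : (n : ℝ) ^ 2 * ((1 - ((r : ℝ) + 1) / n) / r) ^ q ≤ ∑ s, f s ^ q := by
      refine le_trans ?_ hJen
      rw [le_div_iff₀ (by positivity)]
      refine le_trans (le_of_eq ?_)
        (pow_le_pow_left₀ (mul_nonneg (by positivity) hW0) hfsum q)
      rw [mul_pow]
      have : ((n : ℝ) ^ 2) ^ q = (n : ℝ) ^ 2 * ((n : ℝ) ^ 2) ^ (q - 1) := by
        rw [← pow_succ']; congr 1; omega
      rw [this]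
      ring
    have h2 : 1 - (q : ℝ) * ((r + 1) / n) ≤ (1 - ((r : ℝ) + 1) / n) ^ q := by
      have h3 : ((r : ℝ) + 1) / n ≤ 1 := by rw [div_le_one hn']; exact hnr
      have h4 := one_add_mul_le_pow (show (-2 : ℝ) ≤ -(((r : ℝ) + 1) / n) by linarith) q
      have h5 : (1 : ℝ) + -(((r : ℝ) + 1) / n) = 1 - ((r : ℝ) + 1) / n := by ring
      rw [h5] at h4
      linarith
    have h6 : G * ((n : ℝ) ^ 2 * ((1 - (q : ℝ) * ((r + 1) / n)) / (r : ℝ) ^ q))
        ≤ C * (n * (R0 + r * (r + 1))) := by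
      refine le_trans ?_ hsum3
      apply mul_le_mul_of_nonneg_left _ hG0.le
      refine le_trans ?_ h1
      rw [div_pow]
      apply mul_le_mul_of_nonneg_left _ (by positivity)
      exact div_le_div_of_nonneg_right h2 (by positivity)
    have h7 : G * ((n : ℝ) ^ 2 * ((1 - (q : ℝ) * ((r + 1) / n)) / (r : ℝ) ^ q))
        = (n / (r : ℝ) ^ q) * (G * (n - q * (r + 1))) := by
      field_simp
    have h8 : C * (n * (R0 + r * (r + 1)))
        = (n / (r : ℝ) ^ q) * (C * (R0 * (r : ℝ) ^ q + r * (r + 1) * (r : ℝ) ^ q)) := by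
      field_simp
    rw [h7, h8] at h6
    have h9 := le_of_mul_le_mul_left h6 (by positivity)
    have h10 : R0 * (r : ℝ) ^ q = (r : ℝ) ^ ((r + 1).choose 2) := by
      rw [hR0, ← pow_add]
      congr 1
      rw [← hrk, hq]
      have h11 : ∀ s t : ℕ, (s + t).choose 2 = s.choose 2 + t.choose 2 + s * t := by
        intro s t
        induction t with
        | zero => simp
        | succ t ih =>
          rw [← add_assoc, Nat.choose_succ_succ', Nat.choose_succ_succ', ih]
          simp only [Nat.choose_one_right]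
          ring
      rw [h11]
    rw [h10] at h9
    exact h9
  · have hneg : (n : ℝ) - q * (r + 1) ≤ 0 := by
      have h1 : (1 : ℝ) ≤ q := by exact_mod_cast hqpos
      have h2 : (r : ℝ) + 1 ≤ q * (r + 1) := by nlinarith
      linarith [not_le.1 hnr]
    have h1 : G * ((n : ℝ) - q * (r + 1)) ≤ 0 :=
      mul_nonpos_of_nonneg_of_nonpos hG0.le hneg
    refine le_trans h1 ?_
    positivity

end Pool.Agent.H25
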