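import Mathlib
import Pool.Agent.H25.Grid6

set_option autoImplicit false

open Finset

namespace Pool.Agent.H25

/-- A grid colouring without alternating rectangle bounds the size of the grid. -/
theorem grid_bound (r n b : ℕ) (hb : 0 < b) (hr1 : 4 * b ≤ r) (hr2 : 128 * b ^ 3 ≤ r) (hn : 0 < n)
    (h v : Fin n → Fin n → Fin n → Fin r)
    (hno : ∀ i i' j j' : Fin n, i < i' → j < j' →
      ¬ (h i j j' = h i' j j' ∧ v j i i' = v j' i i')) :
    (n : ℝ) ≤ ((r : ℝ) + 1) ^ 3 + 4 * (r : ℝ) ^ ((r + 1).choose 2) / (1 + 3 * (b : ℝ) / 128) := by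
  have hrpos : 0 < r := by omega
  have hr' : (0 : ℝ) < r := by exact_mod_cast hrpos
  have hb' : (0 : ℝ) < b := by exact_mod_cast hb
  have hb1 : 1 ≤ b ^ 3 := Nat.one_le_pow _ _ hb
  have hr128 : 128 ≤ r := by nlinarith
  set k : ℕ := r / (4 * b) with hk
  have hk0 : 0 < k := Nat.div_pos hr1 (by omega)
  have hkle : 4 * b * k ≤ r := Nat.mul_div_le r (4 * b)
  have hkge : r < 4 * b * (k + 1) := by
    have := Nat.lt_mul_div_succ r (show 0 < 4 * b by omega)
    simpa [hk] using this
  set m : ℕ := r + 1 - 2 * k * b with hm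
  have h2kb : 2 * k * b * 2 ≤ r := by
    calc 2 * k * b * 2 = 4 * b * k := by ring
      _ ≤ r := hkle
  have hmge : r + 2 ≤ 2 * m := by omega
  have hm2 : 2 ≤ m := by omega
  have hrk : 2 * k * b + m = r + 1 := by omega
  -- the colouring of vertical edges
  let col : Fin n → Fin n → Fin n → Fin r := fun j x y => v j (min x y) (max x y)
  have hs : ∀ j x y, col j x y = col j y x := by
    intro j x y
    show v j (min x y) (max x y) = v j (min y x) (max y x)
    rw [min_comm, max_comm]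
  have hH : Separated col := by
    have key : ∀ j j' : Fin n, j < j' → ∀ x y : Fin n, x ≠ y → col j x y = col j' x y →
        h x j j' ≠ h y j j' := by
      intro j j' hjj x y hxy hcol heq
      rcases lt_or_gt_of_ne hxy with hlt | hlt
      · have h1 : min x y = x := min_eq_left hlt.le
        have h2 : max x y = y := max_eq_right hlt.le
        have h3 : v j (min x y) (max x y) = v j' (min x y) (max x y) := hcol
        rw [h1, h2] at h3
        exact hno x y j j' hlt hjj ⟨heq, h3⟩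
      · have h1 : min x y = y := min_eq_right hlt.le
        have h2 : max x y = x := max_eq_left hlt.le
        have h3 : v j (min x y) (max x y) = v j' (min x y) (max x y) := hcol
        rw [h1, h2] at h3
        exact hno y x j j' hlt hjj ⟨heq.symm, h3⟩
    intro j j' hjj
    rcases lt_or_gt_of_ne hjj with hlt | hlt
    · exact ⟨fun x => h x j j', fun x y hxy hc => key j j' hlt x y hxy hc⟩
    · exact ⟨fun x => h x j' j, fun x y hxy hc => key j' j hlt x y hxy hc.symm⟩
  have hmain := main_bound col hs hH hrpos n hn (Fintype.card_fin n) (Fintype.card_fin n)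
    k b m hk0 hb (by omega) hm2 hrk
  set q : ℕ := 2 * k * b * m with hq
  set T : ℝ := (r : ℝ) ^ ((r + 1).choose 2) with hT
  have hTpos : 0 < T := by rw [hT]; positivity
  -- the factor C is at most 2
  have hC : (1 + (r : ℝ) / (k : ℝ) ^ 2) ^ b ≤ 2 := by
    have hk' : (0 : ℝ) < k := by exact_mod_cast hk0
    have hkk : (r : ℝ) ≤ 8 * b * k := by
      have : r ≤ 8 * b * k := by nlinarith
      exact_mod_cast this
    set x : ℝ := (r : ℝ) / (k : ℝ) ^ 2 with hx
    have hx0 : 0 ≤ x := by rw [hx]; positivity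
    have hbx : (b : ℝ) * x ≤ 1 / 2 := by
      rw [hx]
      have h1 : (128 : ℝ) * b ^ 3 ≤ r := by exact_mod_cast hr2
      have h2 : (r : ℝ) ^ 2 ≤ (8 * b * k) ^ 2 := pow_le_pow_left₀ hr'.le hkk 2
      rw [← mul_div_assoc, div_le_iff₀ (by positivity)]
      -- b r ≤ k^2 / 2
      have h3 : (b : ℝ) * r * (128 * b ^ 2) ≤ 1 / 2 * (k : ℝ) ^ 2 * (128 * b ^ 2) := by
        have h4 : (b : ℝ) * r * (128 * b ^ 2) = (128 * b ^ 3) * r := by ring
        have h5 : (1 : ℝ) / 2 * (k : ℝ) ^ 2 * (128 * b ^ 2) = (8 * b * k) ^ 2 := by ring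
        rw [h4, h5]
        refine le_trans ?_ h2
        rw [sq]
        exact mul_le_mul_of_nonneg_right h1 hr'.le
      exact le_of_mul_le_mul_right h3 (by positivity)
    have hx1 : x ≤ 1 / 2 := by
      have : (1 : ℝ) ≤ b := by exact_mod_cast hb
      nlinarith
    have h1 := one_add_mul_le_pow (show (-2 : ℝ) ≤ -x by linarith) b
    have h2 : (1 + x) ^ b * (1 + -x) ^ b ≤ 1 := by
      rw [← mul_pow]
      apply pow_le_one₀
      · nlinarith
      · nlinarith
    have h3 : (1 : ℝ) / 2 ≤ (1 + -x) ^ b := by linarith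
    have h4 : 0 ≤ (1 + x) ^ b := by positivity
    nlinarith
  -- the factor G
  have hG : 1 + 3 * (b : ℝ) / 128 ≤ (1 + 3 * (b : ℝ) / (64 * r)) ^ m := by
    have h1 := one_add_mul_le_pow (show (-2 : ℝ) ≤ 3 * (b : ℝ) / (64 * r) by
      have : (0 : ℝ) ≤ 3 * (b : ℝ) / (64 * r) := by positivity
      linarith) m
    refine le_trans ?_ h1
    have h2 : (r : ℝ) ≤ 2 * m := by
      have : r ≤ 2 * m := by omega
      exact_mod_cast this
    have h3 : 3 * (b : ℝ) / 128 = (r : ℝ) / 2 * (3 * (b : ℝ) / (64 * r)) := by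
      field_simp; ring
    rw [h3]
    have h4 : (r : ℝ) / 2 ≤ m := by linarith
    have h5 : (0 : ℝ) ≤ 3 * (b : ℝ) / (64 * r) := by positivity
    linarith [mul_le_mul_of_nonneg_right h4 h5]
  -- the error term
  have hE : (r : ℝ) * (r + 1) * (r : ℝ) ^ q ≤ T := by
    have h1 : ∀ s t : ℕ, (s + t).choose 2 = s.choose 2 + t.choose 2 + s * t := by
      intro s t
      induction t with
      | zero => simp
      | succ t ih =>
        rw [← add_assoc, Nat.choose_succ_succ', Nat.choose_succ_succ', ih]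
        simp only [Nat.choose_one_right]
        ring
    have h2 : 3 + q ≤ (r + 1).choose 2 := by
      rw [← hrk, h1, hq]
      have h3 : 3 ≤ m.choose 2 := by
        have h4 : (3 : ℕ).choose 2 ≤ m.choose 2 := Nat.choose_le_choose 2 (by omega)
        simpa using h4
      omega
    have h3 : (r : ℝ) * (r + 1) ≤ (r : ℝ) ^ 3 := by
      have : (128 : ℝ) ≤ r := by exact_mod_cast hr128
      nlinarith [mul_pos hr' hr']
    calc (r : ℝ) * (r + 1) * (r : ℝ) ^ q ≤ (r : ℝ) ^ 3 * (r : ℝ) ^ q :=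
          mul_le_mul_of_nonneg_right h3 (by positivity)
      _ = (r : ℝ) ^ (3 + q) := by rw [pow_add]
      _ ≤ T := by
          rw [hT]
          exact pow_le_pow_right₀ (by exact_mod_cast hrpos) h2
  have hqle : (q : ℝ) * (r + 1) ≤ ((r : ℝ) + 1) ^ 3 := by
    have h1 : q ≤ (r + 1) ^ 2 := by
      rw [hq, sq]
      exact Nat.mul_le_mul (by omega) (by omega)
    have h2 : (q : ℝ) ≤ ((r : ℝ) + 1) ^ 2 := by exact_mod_cast h1
    have h3 : ((r : ℝ) + 1) ^ 3 = ((r : ℝ) + 1) ^ 2 * (r + 1) := by ring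
    rw [h3]
    exact mul_le_mul_of_nonneg_right h2 (by positivity)
  have hden : (0 : ℝ) < 1 + 3 * (b : ℝ) / 128 := by positivity
  by_cases hneg : (n : ℝ) - q * (r + 1) ≤ 0
  · have : (0 : ℝ) ≤ 4 * T / (1 + 3 * (b : ℝ) / 128) := by positivity
    linarith
  · have hpos : 0 < (n : ℝ) - q * (r + 1) := not_le.1 hneg
    have h1 : (1 + 3 * (b : ℝ) / 128) * ((n : ℝ) - q * (r + 1)) ≤ 4 * T := by
      calc (1 + 3 * (b : ℝ) / 128) * ((n : ℝ) - q * (r + 1))
          ≤ (1 + 3 * (b : ℝ) / (64 * r)) ^ m * ((n : ℝ) - q * (r + 1)) :=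
            mul_le_mul_of_nonneg_right hG hpos.le
        _ ≤ (1 + (r : ℝ) / (k : ℝ) ^ 2) ^ b * (T + r * (r + 1) * (r : ℝ) ^ q) := hmain
        _ ≤ 2 * (T + T) := by
            apply mul_le_mul hC _ (by positivity) (by norm_num)
            linarith
        _ = 4 * T := by ring
    have h2 : (n : ℝ) - q * (r + 1) ≤ 4 * T / (1 + 3 * (b : ℝ) / 128) := by
      rw [le_div_iff₀ hden]
      linarith
    linarith

end Pool.Agent.H25
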