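import Mathlib

set_option autoImplicit false

namespace Pool.Agent.H25.Sync

/-- Eulerian numbers by their recurrence. -/
def eu : ℕ → ℕ → ℤ
  | 0, 0 => 1
  | 0, _ + 1 => 0
  | n + 1, 0 => eu n 0
  | n + 1, k + 1 => (k + 2) * eu n (k + 1) + (n - k) * eu n k

theorem eu_zero_right (n : ℕ) : eu n 0 = 1 := by
  induction n with
  | zero => rfl
  | succ n ih => rw [eu]; exact ih

theorem eu_succ_succ (n k : ℕ) :
    eu (n + 1) (k + 1) = (k + 2) * eu n (k + 1) + (n - k) * eu n k := by rw [eu]

/-- Above the diagonal the numbers vanish. -/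
theorem eu_large (n k : ℕ) (h : n ≤ k) (hk : 1 ≤ k) : eu n k = 0 := by
  induction n generalizing k with
  | zero =>
    obtain ⟨k, rfl⟩ : ∃ k', k = k' + 1 := ⟨k - 1, by omega⟩
    rfl
  | succ n ih =>
    obtain ⟨k, rfl⟩ : ∃ k', k = k' + 1 := ⟨k - 1, by omega⟩
    rw [eu_succ_succ, ih (k + 1) (by omega) (by omega)]
    rcases Nat.eq_or_lt_of_le (show n ≤ k by omega) with h1 | h1
    · rw [h1]; ring
    · rw [ih k (by omega) (by omega)]; ring

theorem eu_pos (n k : ℕ) (h : k < n) : 0 < eu n k := by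
  induction n generalizing k with
  | zero => omega
  | succ n ih =>
    rcases k with _ | k
    · rw [eu_zero_right]; norm_num
    · rw [eu_succ_succ]
      have h1 : 0 < eu n k := ih k (by omega)
      have h2 : (0 : ℤ) < (n : ℤ) - k := by
        have : k < n := by omega
        have : (k : ℤ) < n := by exact_mod_cast this
        linarith
      have h3 : 0 ≤ eu n (k + 1) := by
        by_cases h4 : k + 1 < n
        · exact (ih (k + 1) h4).le
        · rw [eu_large n (k + 1) (by omega) (by omega)]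
      have h5 : 0 < ((n : ℤ) - k) * eu n k := mul_pos h2 h1
      have h6 : 0 ≤ ((k : ℤ) + 2) * eu n (k + 1) := by positivity
      linarith

theorem eu_nonneg (n k : ℕ) : 0 ≤ eu n k := by
  by_cases h : k < n
  · exact (eu_pos n k h).le
  · rcases Nat.eq_zero_or_pos k with h0 | h0
    · rw [h0, eu_zero_right]; norm_num
    · rw [eu_large n k (by omega) h0]

/-- Symmetry. -/
theorem eu_symm (n k l : ℕ) (h : k + l + 1 = n) : eu n k = eu n l := by
  induction n generalizing k l with
  | zero => omega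
  | succ n ih =>
    rcases k with _ | k
    · rcases l with _ | l
      · rfl
      · have hn : n = l + 1 := by omega
        subst hn
        rw [eu_succ_succ, eu_large (l + 1) (l + 1) le_rfl (by omega), eu_zero_right]
        have h1 := ih 0 l (by omega)
        rw [eu_zero_right] at h1
        rw [← h1]
        push_cast
        ring
    · rcases l with _ | l
      · have hn : n = k + 1 := by omega
        subst hn
        rw [eu_succ_succ, eu_large (k + 1) (k + 1) le_rfl (by omega), eu_zero_right]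
        have h1 := ih 0 k (by omega)
        rw [eu_zero_right] at h1
        rw [← h1]
        push_cast
        ring
      · rw [eu_succ_succ, eu_succ_succ]
        have h1 := ih (k + 1) l (by omega)
        have h2 := ih k (l + 1) (by omega)
        rw [h1, h2]
        have h3 : (n : ℤ) = k + l + 2 := by
          have : n = k + l + 2 := by omega
          rw [this]; push_cast; ring
        rw [h3]
        ring

theorem newton_step (x y α β γ δ : ℤ) (hx : 1 ≤ x) (hy : 1 ≤ y) (hβ : 0 ≤ β) (hγ : 0 ≤ γ)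
    (H1 : (x + 1) * y * (β * δ) ≤ x * (y - 1) * γ ^ 2)
    (H2 : x * (y + 1) * (α * γ) ≤ (x - 1) * y * β ^ 2)
    (H3 : (x + 1) * (y + 1) * (α * δ) ≤ (x - 1) * (y - 1) * (β * γ)) :
    (x + 1) * (y + 1) * ((x * β + (y + 2) * α) * ((x + 2) * δ + y * γ))
      ≤ x * y * ((x + 1) * γ + (y + 1) * β) ^ 2 := by
  have hxy : 0 < x * y := by positivity
  have e : x * y * (x * y * ((x + 1) * γ + (y + 1) * β) ^ 2
      - (x + 1) * (y + 1) * ((x * β + (y + 2) * α) * ((x + 2) * δ + y * γ)))
      = x ^ 2 * (x + 2) * (y + 1) * (x * (y - 1) * γ ^ 2 - (x + 1) * y * (β * δ))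
        + y ^ 2 * (x + 1) * (y + 2) * ((x - 1) * y * β ^ 2 - x * (y + 1) * (α * γ))
        + x * y * (x + 2) * (y + 2) * ((x - 1) * (y - 1) * (β * γ)
            - (x + 1) * (y + 1) * (α * δ))
        + x ^ 2 * γ ^ 2 * (y ^ 2 + x * (x + 2)) + y ^ 2 * β ^ 2 * (x ^ 2 + y * (y + 2))
        + x * y * (β * γ) * (2 * (x ^ 2 + x) + 2 * (y ^ 2 + y) - 4) := by ring
  have h1 : 0 ≤ x ^ 2 * (x + 2) * (y + 1) * (x * (y - 1) * γ ^ 2 - (x + 1) * y * (β * δ)) :=
    mul_nonneg (by positivity) (by linarith)
  have h2 : 0 ≤ y ^ 2 * (x + 1) * (y + 2) * ((x - 1) * y * β ^ 2 - x * (y + 1) * (α * γ)) :=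
    mul_nonneg (by positivity) (by linarith)
  have h3 : 0 ≤ x * y * (x + 2) * (y + 2) * ((x - 1) * (y - 1) * (β * γ)
            - (x + 1) * (y + 1) * (α * δ)) :=
    mul_nonneg (by positivity) (by linarith)
  have h4 : 0 ≤ x * y * (β * γ) * (2 * (x ^ 2 + x) + 2 * (y ^ 2 + y) - 4) := by
    apply mul_nonneg (by positivity)
    nlinarith
  have h5 : 0 ≤ x ^ 2 * γ ^ 2 * (y ^ 2 + x * (x + 2)) := by positivity
  have h6 : 0 ≤ y ^ 2 * β ^ 2 * (x ^ 2 + y * (y + 2)) := by positivity
  have h7 : 0 ≤ x * y * (x * y * ((x + 1) * γ + (y + 1) * β) ^ 2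
      - (x + 1) * (y + 1) * ((x * β + (y + 2) * α) * ((x + 2) * δ + y * γ))) := by
    rw [e]; linarith
  have h8 := nonneg_of_mul_nonneg_right h7 hxy
  linarith

/-- Newton-type inequality (ultra log-concavity) for the Eulerian numbers. -/
theorem eu_newton (n k : ℕ) :
    ((k : ℤ) + 2) * ((n : ℤ) - (k + 1)) * (eu n k * eu n (k + 2))
      ≤ ((k : ℤ) + 1) * ((n : ℤ) - (k + 2)) * eu n (k + 1) ^ 2 := by
  induction n generalizing k with
  | zero =>
    rw [eu_large 0 (k + 1) (by omega) (by omega), eu_large 0 (k + 2) (by omega) (by omega)]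
    simp
  | succ n ih =>
    by_cases hk : n ≤ k + 1
    · -- trivial range
      rw [eu_large (n + 1) (k + 2) (by omega) (by omega)]
      rcases Nat.eq_or_lt_of_le hk with h | h
      · rw [h]; push_cast; ring_nf; rfl
      · rw [eu_large (n + 1) (k + 1) (by omega) (by omega)]; simp
    · have hkn : k + 1 < n := not_le.1 hk
      obtain ⟨y, hy⟩ : ∃ y : ℕ, n = k + 1 + (y + 1) := ⟨n - (k + 2), by omega⟩
      have hnz : (n : ℤ) = (k : ℤ) + 1 + (y + 1) := by rw [hy]; push_cast; ring
      have hn1 : ((n + 1 : ℕ) : ℤ) = (k : ℤ) + 1 + (y + 1) + 1 := by push_cast; rw [hnz]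
      have hy1 : (1 : ℤ) ≤ (y : ℤ) + 1 := by linarith [Int.natCast_nonneg y]
      have hβ : 0 < eu n k := eu_pos n k (by omega)
      have hγ : 0 < eu n (k + 1) := eu_pos n (k + 1) (by omega)
      have H1 := ih k
      rw [hnz] at H1
      have e2 : eu (n + 1) (k + 2) = ((k : ℤ) + 1 + 2) * eu n (k + 2)
          + (y + 1) * eu n (k + 1) := by
        rw [eu_succ_succ, hnz]; push_cast; ring
      have e1 : eu (n + 1) (k + 1) = ((k : ℤ) + 1 + 1) * eu n (k + 1)
          + (y + 1 + 1) * eu n k := by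
        rw [eu_succ_succ, hnz]; push_cast; ring
      rcases k with _ | k
      · have e0 : eu (n + 1) 0 = (((0 : ℕ) : ℤ) + 1) * eu n 0 + (y + 1 + 2) * 0 := by
          rw [eu_zero_right, eu_zero_right]; norm_num
        have := newton_step (((0 : ℕ) : ℤ) + 1) (y + 1) 0 (eu n 0) (eu n (0 + 1)) (eu n (0 + 2))
          (by norm_num) hy1 hβ.le hγ.le
          (by refine le_trans (le_of_eq ?_) (le_trans H1 (le_of_eq ?_)) <;> push_cast <;> ring)
          (by push_cast; ring_nf; rfl)
          (by push_cast; ring_nf; rfl)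
        rw [e2, e1, e0]
        refine le_trans (le_of_eq ?_) (le_trans this (le_of_eq ?_))
        · rw [hn1]; push_cast; ring
        · rw [hn1]; push_cast; ring
      · have e0 : eu (n + 1) (k + 1) = (((k + 1 : ℕ) : ℤ) + 1) * eu n (k + 1)
            + (y + 1 + 2) * eu n k := by
          rw [eu_succ_succ, hnz]; push_cast; ring
        have H2 := ih k
        rw [hnz] at H2
        have H1' : ((((k + 1 : ℕ) : ℤ) + 1) + 1) * (y + 1) * (eu n (k + 1) * eu n (k + 1 + 2))
            ≤ (((k + 1 : ℕ) : ℤ) + 1) * (y + 1 - 1) * eu n (k + 1 + 1) ^ 2 := by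
          refine le_trans (le_of_eq ?_) (le_trans H1 (le_of_eq ?_)) <;> push_cast <;> ring
        have H2' : (((k + 1 : ℕ) : ℤ) + 1) * (y + 1 + 1) * (eu n k * eu n (k + 1 + 1))
            ≤ ((((k + 1 : ℕ) : ℤ) + 1) - 1) * (y + 1) * eu n (k + 1) ^ 2 := by
          refine le_trans (le_of_eq ?_) (le_trans H2 (le_of_eq ?_)) <;> push_cast <;> ring
        have H3' : ((((k + 1 : ℕ) : ℤ) + 1) + 1) * (y + 1 + 1) * (eu n k * eu n (k + 1 + 2))
            ≤ ((((k + 1 : ℕ) : ℤ) + 1) - 1) * (y + 1 - 1) * (eu n (k + 1) * eu n (k + 1 + 1)) := by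
          set X : ℤ := ((k + 1 : ℕ) : ℤ) + 1 with hX
          have hX1 : 1 ≤ X := by rw [hX]; push_cast; linarith [Int.natCast_nonneg k]
          have hα : 0 < eu n k := eu_pos n k (by omega)
          have hδ : 0 ≤ eu n (k + 1 + 2) := eu_nonneg _ _
          have hprod := mul_le_mul H1' H2' (by
            apply mul_nonneg
            · apply mul_nonneg (by linarith) (by positivity)
            · exact mul_nonneg hα.le hγ.le) (by
            apply mul_nonneg
            · apply mul_nonneg (by linarith)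
              have : (0 : ℤ) ≤ y := Int.natCast_nonneg y
              linarith
            · positivity)
          have hpos : 0 < X * (y + 1) * (eu n (k + 1) * eu n (k + 1 + 1)) := by
            apply mul_pos
            · apply mul_pos (by linarith) (by positivity)
            · exact mul_pos hβ hγ
          have hfin : X * (y + 1) * (eu n (k + 1) * eu n (k + 1 + 1)) *
              ((X + 1) * (y + 1 + 1) * (eu n k * eu n (k + 1 + 2)))
              ≤ X * (y + 1) * (eu n (k + 1) * eu n (k + 1 + 1)) *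
                ((X - 1) * (y + 1 - 1) * (eu n (k + 1) * eu n (k + 1 + 1))) := by
            refine le_trans (le_of_eq ?_) (le_trans hprod (le_of_eq ?_)) <;> ring
          exact le_of_mul_le_mul_left hfin hpos
        have := newton_step (((k + 1 : ℕ) : ℤ) + 1) (y + 1) (eu n k) (eu n (k + 1))
          (eu n (k + 1 + 1)) (eu n (k + 1 + 2))
          (by push_cast; linarith [Int.natCast_nonneg k]) hy1 hβ.le hγ.le H1' H2' H3'
        rw [e2, e1, e0]
        refine le_trans (le_of_eq ?_) (le_trans this (le_of_eq ?_))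
        · rw [hn1]; push_cast; ring
        · rw [hn1]; push_cast; ring

end Pool.Agent.H25.Sync
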