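import Mathlib
import Pool.Agent.H25.Sync1

set_option autoImplicit false

namespace Pool.Agent.H25.Sync

/-- Signed descent numbers by their two-step recurrence. -/
def ds : ℕ → ℕ → ℤ
  | 0, 0 => 1
  | 0, _ + 1 => 0
  | 1, 0 => 1
  | 1, _ + 1 => 0
  | n + 2, 0 => ds n 0
  | n + 2, 1 => 2 * ds n 1 + ((n : ℤ) - 1) * ds n 0
  | n + 2, k + 2 => ((k : ℤ) + 3) * ds n (k + 2) + ((n : ℤ) - 3 - 2 * k) * ds n (k + 1)
      - ((n : ℤ) - k) * ds n k

/-- Signed excedance numbers by their recurrence. -/
def es : ℕ → ℕ → ℤ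
  | 0, 0 => 1
  | 0, _ + 1 => 0
  | n + 1, 0 => es n 0
  | n + 1, k + 1 => -(k : ℤ) * es n (k + 1) - ((n : ℤ) - k) * es n k

theorem ds_zero_right (n : ℕ) : ds n 0 = 1 := by
  induction n using Nat.strong_induction_on with
  | _ n ih =>
    rcases n with _ | _ | n
    · rfl
    · rfl
    · rw [ds]; exact ih n (by omega)

theorem ds_large (n k : ℕ) (h : n ≤ k) (hk : 1 ≤ k) : ds n k = 0 := by
  induction n using Nat.strong_induction_on generalizing k with
  | _ n ih =>
    obtain ⟨k, rfl⟩ : ∃ k', k = k' + 1 := ⟨k - 1, by omega⟩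
    rcases n with _ | _ | n
    · rfl
    · rfl
    · obtain ⟨k, rfl⟩ : ∃ k', k = k' + 1 := ⟨k - 1, by omega⟩
      rw [ds, ih n (by omega) (k + 2) (by omega) (by omega),
        ih n (by omega) (k + 1) (by omega) (by omega)]
      rcases Nat.eq_or_lt_of_le (show n ≤ k by omega) with h1 | h1
      · rw [h1]; ring
      · rw [ih n (by omega) k (by omega) (by omega)]; ring

theorem ds_top (n : ℕ) : |ds (n + 1) n| = 1 := by
  induction n using Nat.strong_induction_on with
  | _ n ih =>
    rcases n with _ | _ | n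
    · rfl
    · rfl
    · rw [show n + 1 + 1 + 1 = (n + 1) + 2 by ring, ds, ds_large (n + 1) (n + 2) (by omega) (by omega),
        ds_large (n + 1) (n + 1) (by omega) (by omega)]
      have h := ih n (by omega)
      have e : ((n : ℤ) + 3) * 0 + (((n + 1 : ℕ) : ℤ) - 3 - 2 * n) * 0
          - (((n + 1 : ℕ) : ℤ) - n) * ds (n + 1) n = - ds (n + 1) n := by
        push_cast; ring
      rw [e, abs_neg, h]

theorem es_closed (n k : ℕ) : es (n + 1) k = (-1) ^ k * (n.choose k : ℤ) := by
  induction n generalizing k with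
  | zero =>
    rcases k with _ | k
    · rfl
    · rw [es]
      rcases k with _ | k
      · simp [es]
      · simp [es, Nat.choose_eq_zero_of_lt]
  | succ n ih =>
    rcases k with _ | k
    · rw [es, ih 0]; simp
    · rw [es, ih, ih]
      have h1 : ((n : ℤ) - k) * (n.choose k : ℤ) = ((k : ℤ) + 1) * (n.choose (k + 1) : ℤ) := by
        by_cases hk : k ≤ n
        · have := Nat.choose_succ_right_eq n k
          have h2 : ((n.choose (k + 1) * (k + 1) : ℕ) : ℤ) = ((n.choose k * (n - k) : ℕ) : ℤ) := by
            rw [this]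
          push_cast [Nat.cast_sub hk] at h2
          linarith
        · rw [Nat.choose_eq_zero_of_lt (by omega), Nat.choose_eq_zero_of_lt (by omega)]
          simp
      rw [Nat.choose_succ_succ']
      push_cast
      have h3 : (-1 : ℤ) ^ (k + 1) = - (-1) ^ k := by rw [pow_succ]; ring
      rw [h3]
      have h4 : -(k : ℤ) * (-(-1) ^ k * (n.choose (k + 1) : ℤ))
          - ((n : ℤ) + 1 - k) * ((-1) ^ k * (n.choose k : ℤ))
          = (-1) ^ k * (k * (n.choose (k + 1) : ℤ) - ((n : ℤ) - k) * (n.choose k : ℤ)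
            - (n.choose k : ℤ)) := by ring
      rw [h4, h1]
      ring

/-- The interior Eulerian numbers are large. -/
theorem eu_big (n k : ℕ) (hn : 12 ≤ n) (hk : 1 ≤ k) (hkn : k + 2 ≤ n) :
    4 * (n : ℤ) ^ 2 ≤ eu n k := by
  induction n, hn using Nat.le_induction generalizing k with
  | base =>
    have : ∀ k ∈ Finset.Icc 1 10, 4 * ((12 : ℕ) : ℤ) ^ 2 ≤ eu 12 k := by decide +kernel
    exact this k (Finset.mem_Icc.2 ⟨hk, by omega⟩)
  | succ n hn ih =>
    obtain ⟨k, rfl⟩ : ∃ k', k = k' + 1 := ⟨k - 1, by omega⟩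
    have hn' : (12 : ℤ) ≤ n := by exact_mod_cast hn
    rw [eu_succ_succ]
    have hk0 : (0 : ℤ) ≤ k := Int.natCast_nonneg k
    have hnk : (k : ℤ) + 2 ≤ n := by
      have : k + 2 ≤ n := by omega
      exact_mod_cast this
    push_cast
    by_cases h : k + 1 + 2 ≤ n
    · have h1 := ih (k + 1) (by omega) h
      have h2 := eu_nonneg n k
      have h3 : 0 ≤ ((n : ℤ) - k) * eu n k := mul_nonneg (by linarith) h2
      have h4 : 2 * eu n (k + 1) ≤ ((k : ℤ) + 2) * eu n (k + 1) :=
        mul_le_mul_of_nonneg_right (by linarith) (by linarith [eu_nonneg n (k + 1)])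
      nlinarith
    · have h1 := ih k (by omega) (by omega)
      have h2 := eu_nonneg n (k + 1)
      have h3 : 0 ≤ ((k : ℤ) + 2) * eu n (k + 1) := mul_nonneg (by linarith) h2
      have h4 : 2 * eu n k ≤ ((n : ℤ) - k) * eu n k :=
        mul_le_mul_of_nonneg_right (by linarith) (by linarith [eu_nonneg n k])
      nlinarith

/-- Correction at the two ends. -/
def chi (n k : ℕ) : ℤ := if k = 0 ∨ k + 1 = n then 4 * (n : ℤ) else 0

theorem chi_nonneg (n k : ℕ) : 0 ≤ chi n k := by
  unfold chi; split_ifs <;> positivity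

theorem chi_le (n k : ℕ) : chi n k ≤ 4 * n := by
  unfold chi; split_ifs
  · exact le_rfl
  · positivity

theorem es_bound (n k : ℕ) (hn : 12 ≤ n) : 4 * (n : ℤ) * |es n k| ≤ eu n k + chi n k := by
  induction n, hn using Nat.le_induction generalizing k with
  | base =>
    by_cases hk : k < 12
    · have : ∀ k ∈ Finset.range 12, 4 * ((12 : ℕ) : ℤ) * |es 12 k| ≤ eu 12 k + chi 12 k := by
        decide +kernel
      exact this k (Finset.mem_range.2 hk)
    · rw [show (12 : ℕ) = 11 + 1 by rfl, es_closed, Nat.choose_eq_zero_of_lt (by omega)]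
      have := eu_nonneg (11 + 1) k
      have := chi_nonneg (11 + 1) k
      simp; linarith
  | succ n hn ih =>
    obtain ⟨n', rfl⟩ : ∃ n', n = n' + 1 := ⟨n - 1, by omega⟩
    have hn' : (12 : ℤ) ≤ ((n' + 1 : ℕ) : ℤ) := by exact_mod_cast hn
    rcases k with _ | k
    · rw [es_closed]
      have h0 : chi (n' + 1 + 1) 0 = 4 * ((n' + 1 + 1 : ℕ) : ℤ) := by unfold chi; simp
      rw [h0, eu_zero_right]
      simp
    · by_cases hk : k + 1 < n' + 1
      · -- interior
        rw [eu_succ_succ, es_closed]
        have ik1 := ih (k + 1)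
        have ik0 := ih k
        rw [es_closed] at ik1 ik0
        simp only [abs_mul, abs_pow, abs_neg, abs_one, one_pow, one_mul, Nat.abs_cast] at ik1 ik0 ⊢
        rw [Nat.choose_succ_succ']
        have hbig : 4 * (((n' + 1 : ℕ) : ℤ)) ^ 2 ≤ eu (n' + 1) (k + 1) + eu (n' + 1) k := by
          by_cases h1 : k + 1 + 2 ≤ n' + 1
          · have := eu_big (n' + 1) (k + 1) hn (by omega) h1
            have := eu_nonneg (n' + 1) k
            linarith
          · have := eu_big (n' + 1) k hn (by omega) (by omega)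
            have := eu_nonneg (n' + 1) (k + 1)
            linarith
        have hchi : chi (n' + 1) (k + 1) + chi (n' + 1) k ≤ 4 * ((n' + 1 : ℕ) : ℤ) := by
          rcases Nat.eq_zero_or_pos k with h0 | h0
          · have : chi (n' + 1) (k + 1) = 0 := by
              unfold chi; rw [if_neg]; omega
            linarith [chi_le (n' + 1) k]
          · have : chi (n' + 1) k = 0 := by
              unfold chi; rw [if_neg]; omega
            linarith [chi_le (n' + 1) (k + 1)]
        have hz := chi_nonneg (n' + 1 + 1) (k + 1)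
        have e1 := eu_nonneg (n' + 1) (k + 1)
        have e0 := eu_nonneg (n' + 1) k
        have hk0 : (0 : ℤ) ≤ k := Int.natCast_nonneg k
        have hnk : (k : ℤ) + 2 ≤ ((n' + 1 : ℕ) : ℤ) := by
          have : k + 2 ≤ n' + 1 := by omega
          exact_mod_cast this
        have h4 : 2 * eu (n' + 1) (k + 1) ≤ ((k : ℤ) + 2) * eu (n' + 1) (k + 1) :=
          mul_le_mul_of_nonneg_right (by linarith) e1
        have h5 : 2 * eu (n' + 1) k ≤ (((n' + 1 : ℕ) : ℤ) - k) * eu (n' + 1) k :=
          mul_le_mul_of_nonneg_right (by linarith) e0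
        set N : ℤ := ((n' + 1 : ℕ) : ℤ) with hN
        set c1 : ℤ := (n'.choose (k + 1) : ℤ)
        set c0 : ℤ := (n'.choose k : ℤ)
        set E : ℤ := eu (n' + 1) (k + 1) + eu (n' + 1) k with hE
        have hsum : 4 * N * (c0 + c1) ≤ E + 4 * N := by linarith
        have hN1 : ((n' + 1 + 1 : ℕ) : ℤ) = N + 1 := by push_cast; rfl
        rw [hN1]
        push_cast
        -- 4 (N+1) (c0+c1) ≤ (1+1/N)(E+4N) ≤ 2 E
        have h6 : N * (4 * (N + 1) * (c0 + c1)) ≤ N * (2 * E) := by
          have h7 : N * (4 * (N + 1) * (c0 + c1)) = (N + 1) * (4 * N * (c0 + c1)) := by ring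
          rw [h7]
          have h8 : (N + 1) * (4 * N * (c0 + c1)) ≤ (N + 1) * (E + 4 * N) :=
            mul_le_mul_of_nonneg_left hsum (by linarith)
          nlinarith
        have h9 := le_of_mul_le_mul_left h6 (by linarith)
        linarith
      · -- top or beyond
        rw [es_closed]
        by_cases hk2 : k = n'
        · subst hk2
          have h0 : chi (k + 1 + 1) (k + 1) = 4 * ((k + 1 + 1 : ℕ) : ℤ) := by unfold chi; simp
          rw [h0]
          simp only [Nat.choose_self, abs_mul, abs_pow, abs_neg, abs_one, one_pow, one_mul,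
            Nat.cast_one]
          have := eu_nonneg (k + 1 + 1) (k + 1)
          linarith
        · rw [Nat.choose_eq_zero_of_lt (by omega)]
          have := eu_nonneg (n' + 1 + 1) (k + 1)
          have := chi_nonneg (n' + 1 + 1) (k + 1)
          simp; linarith


theorem ds_arith (n a c d M W X2 X1 X0 : ℤ) (hn : 12 ≤ n) (ha : 3 ≤ a) (hc : 2 ≤ c) (hd : 0 ≤ d)
    (p2 : 0 ≤ X2) (p1 : 0 ≤ X1) (p0 : 0 ≤ X0)
    (hS : n * (4 * W) ≤ a * X2 + d * X1 + c * X0 + 4 * n ^ 2) (hmid : 7 * d + 6 * n ≤ 6 * M)
    (hbig : 4 * n ^ 2 ≤ X1 ∨ 4 * n ^ 2 ≤ X0) :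
    4 * (n + 2) * W ≤ a ^ 2 * X2 + M * X1 + c ^ 2 * X0 := by
  set Y : ℤ := a * X2 + d * X1 + c * X0 + 4 * n ^ 2 with hY
  have hY0 : 0 ≤ Y := by rw [hY]; positivity
  have w2 : 7 * (a * X2) ≤ 6 * (a ^ 2 * X2) := by
    have h : 0 ≤ (6 * a ^ 2 - 7 * a) := by nlinarith
    have := mul_nonneg h p2
    linarith
  have w1 : 7 * (d * X1) + 6 * n * X1 ≤ 6 * (M * X1) := by
    have := mul_le_mul_of_nonneg_right hmid p1
    linarith
  have w0 : 7 * (c * X0) + 10 * X0 ≤ 6 * (c ^ 2 * X0) := by
    have h : 0 ≤ (6 * c ^ 2 - 7 * c - 10) := by nlinarith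
    have := mul_nonneg h p0
    linarith
  have z : 28 * n ^ 2 ≤ 6 * n * X1 + 10 * X0 := by
    rcases hbig with hb | hb
    · have h1 : 6 * n * (4 * n ^ 2) ≤ 6 * n * X1 := mul_le_mul_of_nonneg_left hb (by linarith)
      have h2 : 0 ≤ (24 * n - 28) * n ^ 2 := mul_nonneg (by linarith) (sq_nonneg n)
      linarith
    · have h1 : 0 ≤ 6 * n * X1 := by positivity
      have h2 : 0 ≤ n ^ 2 := sq_nonneg n
      linarith
  have hfin : 7 * Y ≤ 6 * (a ^ 2 * X2 + M * X1 + c ^ 2 * X0) := by rw [hY]; linarith
  have h1 : 6 * (n + 2) * (n * (4 * W)) ≤ 6 * (n + 2) * Y :=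
    mul_le_mul_of_nonneg_left hS (by linarith)
  have h2 : 6 * (n + 2) * Y ≤ 7 * n * Y := mul_le_mul_of_nonneg_right (by linarith) hY0
  have h3 : n * (7 * Y) ≤ n * (6 * (a ^ 2 * X2 + M * X1 + c ^ 2 * X0)) :=
    mul_le_mul_of_nonneg_left hfin (by linarith)
  have h4 : 6 * n * (4 * (n + 2) * W) ≤ 6 * n * (a ^ 2 * X2 + M * X1 + c ^ 2 * X0) := by
    linarith
  exact le_of_mul_le_mul_left h4 (by linarith)

theorem ds_arith2 (n a c d D2 D1 D0 X2 X1 X0 c2 c1 c0 : ℤ) (ha : 0 ≤ a) (hc : 0 ≤ c) (hd : 0 ≤ d)
    (i2 : 4 * n * D2 ≤ X2 + c2) (i1 : 4 * n * D1 ≤ X1 + c1) (i0 : 4 * n * D0 ≤ X0 + c0)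
    (hchi : a * c2 + d * c1 + c * c0 ≤ 4 * n ^ 2) :
    n * (4 * (a * D2 + d * D1 + c * D0)) ≤ a * X2 + d * X1 + c * X0 + 4 * n ^ 2 := by
  have j2 := mul_le_mul_of_nonneg_left i2 ha
  have j1 := mul_le_mul_of_nonneg_left i1 hd
  have j0 := mul_le_mul_of_nonneg_left i0 hc
  linarith

theorem ds_mid (n k d : ℤ) (hk0 : 0 ≤ k) (hkn : k + 2 ≤ n) (hd : d ≤ n - 1) (hn : 12 ≤ n) :
    7 * d + 6 * n ≤ 6 * ((k + 3) * (n - 1 - k) + (k + 2) * (n - k)) := by
  nlinarith [mul_nonneg hk0 (show (0 : ℤ) ≤ n - k - 2 by linarith)]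

set_option maxHeartbeats 4000000 in
theorem ds_bound (n k : ℕ) (hn : 12 ≤ n) : 4 * (n : ℤ) * |ds n k| ≤ eu n k + chi n k := by
  induction n using Nat.strong_induction_on generalizing k with
  | _ n ih =>
    rcases Nat.lt_or_ge n 14 with h14 | h14
    · rcases (show n = 12 ∨ n = 13 by omega) with rfl | rfl
      · by_cases hk : k < 12
        · have : ∀ k ∈ Finset.range 12, 4 * ((12 : ℕ) : ℤ) * |ds 12 k| ≤ eu 12 k + chi 12 k := by
            decide +kernel
          exact this k (Finset.mem_range.2 hk)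
        · rw [ds_large 12 k (by omega) (by omega)]
          have := eu_nonneg 12 k
          have := chi_nonneg 12 k
          simp; linarith
      · by_cases hk : k < 13
        · have : ∀ k ∈ Finset.range 13, 4 * ((13 : ℕ) : ℤ) * |ds 13 k| ≤ eu 13 k + chi 13 k := by
            decide +kernel
          exact this k (Finset.mem_range.2 hk)
        · rw [ds_large 13 k (by omega) (by omega)]
          have := eu_nonneg 13 k
          have := chi_nonneg 13 k
          simp; linarith
    · obtain ⟨n, rfl⟩ : ∃ n', n = n' + 2 := ⟨n - 2, by omega⟩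
      have hn12 : 12 ≤ n := by omega
      have hN : (12 : ℤ) ≤ (n : ℤ) := by exact_mod_cast hn12
      have ih' := ih n (by omega)
      have hcast : ((n + 2 : ℕ) : ℤ) = (n : ℤ) + 2 := by push_cast; ring
      rcases k with _ | _ | k
      · -- k = 0
        rw [ds_zero_right, eu_zero_right]
        have : chi (n + 2) 0 = 4 * ((n + 2 : ℕ) : ℤ) := by unfold chi; simp
        rw [this]; simp
      · -- k = 1
        have hz := chi_nonneg (n + 2) (0 + 1)
        have h1 := ih' 1 hn12
        have hc : chi n 1 = 0 := by unfold chi; rw [if_neg]; omega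
        rw [hc] at h1
        have hbig := eu_big n 1 hn12 le_rfl (by omega)
        have e1 : eu (n + 2) (0 + 1) = 4 * eu n 1 + (3 * n + 1) := by
          rw [eu_succ_succ, eu_succ_succ, eu_zero_right, eu_zero_right]
          push_cast; ring
        have e2 : ds (n + 2) (0 + 1) = 2 * ds n 1 + ((n : ℤ) - 1) := by
          rw [show (0 + 1 : ℕ) = 1 by rfl, ds, ds_zero_right]; ring
        rw [e1, e2, hcast]
        have h2 : |2 * ds n 1 + ((n : ℤ) - 1)| ≤ 2 * |ds n 1| + (n - 1) := by
          refine le_trans (abs_add_le _ _) ?_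
          rw [abs_mul, abs_of_nonneg (show (0 : ℤ) ≤ 2 by norm_num),
            abs_of_nonneg (show (0 : ℤ) ≤ (n : ℤ) - 1 by linarith)]
        have h3 : (n : ℤ) * (4 * ((n : ℤ) + 2) * |2 * ds n 1 + ((n : ℤ) - 1)|)
            ≤ n * (4 * eu n 1 + (3 * n + 1) + chi (n + 2) (0 + 1)) := by
          have h4 : (n : ℤ) * (4 * ((n : ℤ) + 2) * |2 * ds n 1 + ((n : ℤ) - 1)|)
              ≤ n * (4 * ((n : ℤ) + 2) * (2 * |ds n 1| + (n - 1))) := by
            apply mul_le_mul_of_nonneg_left _ (by linarith)
            exact mul_le_mul_of_nonneg_left h2 (by linarith)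
          refine le_trans h4 ?_
          have h5 : (n : ℤ) * (4 * ((n : ℤ) + 2) * (2 * |ds n 1| + (n - 1)))
              = 2 * (n + 2) * (4 * n * |ds n 1|) + 4 * n * (n + 2) * (n - 1) := by ring
          rw [h5]
          have h6 : 2 * ((n : ℤ) + 2) * (4 * n * |ds n 1|) ≤ 2 * (n + 2) * eu n 1 :=
            mul_le_mul_of_nonneg_left (by linarith) (by linarith)
          nlinarith [mul_nonneg (show (0 : ℤ) ≤ (n : ℤ) by linarith) hz]
        exact le_of_mul_le_mul_left h3 (by linarith)
      · -- k + 2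
        by_cases hk : k + 2 ≤ n
        · have hz := chi_nonneg (n + 2) (k + 1 + 1)
          have hk0 : (0 : ℤ) ≤ k := Int.natCast_nonneg k
          have hkn : (k : ℤ) + 2 ≤ n := by exact_mod_cast hk
          have i2 := ih' (k + 2) hn12
          have i1 := ih' (k + 1) hn12
          have i0 := ih' k hn12
          have p2 := eu_nonneg n (k + 2)
          have p1 := eu_nonneg n (k + 1)
          have p0 := eu_nonneg n k
          have e1 : eu (n + 2) (k + 1 + 1) = ((k : ℤ) + 3) ^ 2 * eu n (k + 2)
              + (((k : ℤ) + 3) * (n - 1 - k) + ((k : ℤ) + 2) * (n - k)) * eu n (k + 1)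
              + ((n : ℤ) - k) ^ 2 * eu n k := by
            rw [eu_succ_succ, eu_succ_succ, eu_succ_succ]
            push_cast; ring
          have e2 : ds (n + 2) (k + 1 + 1) = ((k : ℤ) + 3) * ds n (k + 2)
              + ((n : ℤ) - 3 - 2 * k) * ds n (k + 1) - ((n : ℤ) - k) * ds n k := by
            rw [show k + 1 + 1 = k + 2 by ring, ds]
          rw [e1, e2, hcast]
          have h2 : |((k : ℤ) + 3) * ds n (k + 2)
              + ((n : ℤ) - 3 - 2 * k) * ds n (k + 1) - ((n : ℤ) - k) * ds n k|
              ≤ ((k : ℤ) + 3) * |ds n (k + 2)| + |(n : ℤ) - 3 - 2 * k| * |ds n (k + 1)|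
                + ((n : ℤ) - k) * |ds n k| := by
            refine le_trans (abs_sub _ _) ?_
            refine le_trans (add_le_add (abs_add_le _ _) le_rfl) ?_
            rw [abs_mul, abs_mul, abs_mul, abs_of_nonneg (show (0 : ℤ) ≤ (k : ℤ) + 3 by linarith),
              abs_of_nonneg (show (0 : ℤ) ≤ (n : ℤ) - k by linarith)]
          -- total of the corrections
          have hchi : ((k : ℤ) + 3) * chi n (k + 2) + |(n : ℤ) - 3 - 2 * k| * chi n (k + 1)
              + ((n : ℤ) - k) * chi n k ≤ 4 * (n : ℤ) ^ 2 := by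
            have habs : |(n : ℤ) - 3 - 2 * k| ≤ n := abs_le.2 ⟨by linarith, by linarith⟩
            by_cases q0 : k = 0
            · have c1 : chi n (k + 1) = 0 := by unfold chi; rw [if_neg]; omega
              have c2 : chi n (k + 2) = 0 := by unfold chi; rw [if_neg]; omega
              have c0 := chi_le n k
              rw [c1, c2, q0] at *
              push_cast at *
              nlinarith
            · have c0 : chi n k = 0 := by unfold chi; rw [if_neg]; omega
              by_cases q1 : k + 1 + 1 = n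
              · have c2 : chi n (k + 2) = 0 := by unfold chi; rw [if_neg]; omega
                have c1 := chi_le n (k + 1)
                have c1' := chi_nonneg n (k + 1)
                rw [c0, c2]
                have := mul_le_mul habs c1 c1' (by linarith)
                nlinarith
              · have c1 : chi n (k + 1) = 0 := by unfold chi; rw [if_neg]; omega
                have c2 := chi_le n (k + 2)
                have c2' := chi_nonneg n (k + 2)
                rw [c0, c1]
                by_cases q2 : k + 2 + 1 = n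
                · have hk3 : (k : ℤ) + 3 = n := by
                    have : (k + 2 + 1 : ℕ) = n := q2
                    have : ((k + 2 + 1 : ℕ) : ℤ) = n := by exact_mod_cast this
                    push_cast at this; linarith
                  rw [hk3]
                  nlinarith
                · have c2z : chi n (k + 2) = 0 := by unfold chi; rw [if_neg]; omega
                  rw [c2z]
                  nlinarith
          -- a large interior number
          have hbig : 4 * (n : ℤ) ^ 2 ≤ eu n (k + 1) ∨ (4 * (n : ℤ) ^ 2 ≤ eu n k ∧ k + 2 = n) := by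
            by_cases q : k + 1 + 2 ≤ n
            · exact Or.inl (eu_big n (k + 1) hn12 (by omega) q)
            · exact Or.inr ⟨eu_big n k hn12 (by omega) (by omega), by omega⟩
          set X2 := eu n (k + 2) with hX2
          set X1 := eu n (k + 1) with hX1
          set X0 := eu n k with hX0
          set a : ℤ := (k : ℤ) + 3 with ha
          set c : ℤ := (n : ℤ) - k with hc
          set d : ℤ := |(n : ℤ) - 3 - 2 * k| with hd
          have hd0 : 0 ≤ d := abs_nonneg _
          have ha3 : 3 ≤ a := by rw [ha]; linarith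
          have hc2 : 2 ≤ c := by rw [hc]; linarith
          have hS : (n : ℤ) * (4 * (a * |ds n (k + 2)| + d * |ds n (k + 1)| + c * |ds n k|))
              ≤ a * X2 + d * X1 + c * X0 + 4 * (n : ℤ) ^ 2 := by
            exact ds_arith2 n a c d _ _ _ X2 X1 X0 _ _ _ (le_trans (by norm_num) ha3)
              (le_trans (by norm_num) hc2) hd0 i2 i1 i0 hchi
          -- middle coefficient
          have hmid : 7 * d + 6 * n ≤ 6 * (a * (n - 1 - k) + ((k : ℤ) + 2) * c) := by
            apply ds_mid n k d hk0 hkn _ hN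
            rw [hd]
            exact abs_le.2 ⟨by linarith, by linarith⟩
          have hgoal := ds_arith n a c d (a * (n - 1 - k) + ((k : ℤ) + 2) * c)
            (a * |ds n (k + 2)| + d * |ds n (k + 1)| + c * |ds n k|) X2 X1 X0 hN ha3 hc2 hd0
            p2 p1 p0 hS hmid (by
              rcases hbig with h | h
              · exact Or.inl h
              · exact Or.inr h.1)
          have h2' := mul_le_mul_of_nonneg_left h2 (show (0 : ℤ) ≤ 4 * ((n : ℤ) + 2) by linarith)
          linarith
        · -- top or beyond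
          by_cases hk2 : k + 1 = n
          · subst hk2
            have h0 : chi (k + 1 + 2) (k + 1 + 1) = 4 * ((k + 1 + 2 : ℕ) : ℤ) := by
              unfold chi; simp
            rw [h0]
            have := ds_top (k + 1 + 1)
            rw [show k + 1 + 2 = k + 1 + 1 + 1 by ring, this]
            have := eu_nonneg (k + 1 + 1 + 1) (k + 1 + 1)
            linarith
          · rw [ds_large (n + 2) (k + 1 + 1) (by omega) (by omega)]
            have := eu_nonneg (n + 2) (k + 1 + 1)
            have := chi_nonneg (n + 2) (k + 1 + 1)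
            simp; linarith

end Pool.Agent.H25.Sync
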