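import Mathlib
import Pool.Agent.H25.Sync2

set_option autoImplicit false

namespace Pool.Agent.H25.Sync

theorem sync_arith_mid (n k A B C X Y Z : ℤ) (hn : 12 ≤ n) (hk : 1 ≤ k) (hkn : k + 2 ≤ n)
    (hA : 0 ≤ A) (hC : 0 ≤ C) (hB : 0 ≤ B) (hX : 0 ≤ X) (hZ : 0 ≤ Z)
    (hN : (k + 1) * (n - k) * (A * C) ≤ k * (n - 1 - k) * B ^ 2)
    (h1 : 4 * n * X ≤ (4 * n + 1) * A) (h2 : 4 * n * Z ≤ (4 * n + 1) * C)
    (h3 : (4 * n - 1) * B ≤ 4 * n * Y) : X * Z ≤ Y ^ 2 := by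
  have e1 : (4 * n * X) * (4 * n * Z) ≤ ((4 * n + 1) * A) * ((4 * n + 1) * C) :=
    mul_le_mul h1 h2 (by positivity) (mul_nonneg (by linarith) hA)
  have e2 : ((4 * n - 1) * B) ^ 2 ≤ (4 * n * Y) ^ 2 :=
    pow_le_pow_left₀ (mul_nonneg (by linarith) hB) h3 2
  have hpos : 0 < (k + 1) * (n - k) := mul_pos (by linarith) (by linarith)
  have e3 : (4 * n + 1) ^ 2 * (k * (n - 1 - k)) ≤ (4 * n - 1) ^ 2 * ((k + 1) * (n - k)) := by
    have h4 : 4 * (k * (n - 1 - k)) ≤ (n - 1) ^ 2 := by nlinarith [sq_nonneg (2 * k - (n - 1))]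
    have h5 : (4 * n - 1) ^ 2 * ((k + 1) * (n - k)) - (4 * n + 1) ^ 2 * (k * (n - 1 - k))
        = (4 * n - 1) ^ 2 * n - 16 * n * (k * (n - 1 - k)) := by ring
    have h6 : 16 * n * (k * (n - 1 - k)) ≤ 4 * n * (n - 1) ^ 2 := by nlinarith
    have h7 : 4 * n * (n - 1) ^ 2 ≤ (4 * n - 1) ^ 2 * n := by nlinarith
    linarith
  have e4 : (k + 1) * (n - k) * (16 * n ^ 2 * (X * Z)) ≤ (k + 1) * (n - k) * (16 * n ^ 2 * Y ^ 2) := by
    calc (k + 1) * (n - k) * (16 * n ^ 2 * (X * Z))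
        = (k + 1) * (n - k) * ((4 * n * X) * (4 * n * Z)) := by ring
      _ ≤ (k + 1) * (n - k) * (((4 * n + 1) * A) * ((4 * n + 1) * C)) :=
          mul_le_mul_of_nonneg_left e1 hpos.le
      _ = (4 * n + 1) ^ 2 * ((k + 1) * (n - k) * (A * C)) := by ring
      _ ≤ (4 * n + 1) ^ 2 * (k * (n - 1 - k) * B ^ 2) :=
          mul_le_mul_of_nonneg_left hN (sq_nonneg _)
      _ = ((4 * n + 1) ^ 2 * (k * (n - 1 - k))) * B ^ 2 := by ring
      _ ≤ ((4 * n - 1) ^ 2 * ((k + 1) * (n - k))) * B ^ 2 :=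
          mul_le_mul_of_nonneg_right e3 (sq_nonneg _)
      _ = (k + 1) * (n - k) * (((4 * n - 1) * B) ^ 2) := by ring
      _ ≤ (k + 1) * (n - k) * ((4 * n * Y) ^ 2) := mul_le_mul_of_nonneg_left e2 hpos.le
      _ = (k + 1) * (n - k) * (16 * n ^ 2 * Y ^ 2) := by ring
  have e5 := le_of_mul_le_mul_left e4 hpos
  have e6 : 0 < 16 * n ^ 2 := by positivity
  exact le_of_mul_le_mul_left e5 e6

theorem sync_arith_end (n B C X Y Z : ℤ) (hn : 12 ≤ n)
    (hC : 0 ≤ C) (hB : 0 ≤ B) (hZ : 0 ≤ Z)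
    (hN : 2 * (n - 1) * C ≤ (n - 2) * B ^ 2)
    (h1 : X ≤ 2) (h2 : 4 * n * Z ≤ (4 * n + 1) * C)
    (h3 : (4 * n - 1) * B ≤ 4 * n * Y) : X * Z ≤ Y ^ 2 := by
  have e0 : X * Z ≤ 2 * Z := mul_le_mul_of_nonneg_right h1 hZ
  have e2 : ((4 * n - 1) * B) ^ 2 ≤ (4 * n * Y) ^ 2 :=
    pow_le_pow_left₀ (mul_nonneg (by linarith) hB) h3 2
  have e3 : 4 * n * (4 * n + 1) * (n - 2) ≤ (4 * n - 1) ^ 2 * (n - 1) := by nlinarith
  have hpos : 0 < (n - 1) * (16 * n ^ 2) := mul_pos (by linarith) (by positivity)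
  have e4 : (n - 1) * (16 * n ^ 2) * (2 * Z) ≤ (n - 1) * (16 * n ^ 2) * Y ^ 2 := by
    calc (n - 1) * (16 * n ^ 2) * (2 * Z) = (n - 1) * (8 * n) * (4 * n * Z) := by ring
      _ ≤ (n - 1) * (8 * n) * ((4 * n + 1) * C) :=
          mul_le_mul_of_nonneg_left h2 (mul_nonneg (by linarith) (by linarith))
      _ = 4 * n * (4 * n + 1) * (2 * (n - 1) * C) := by ring
      _ ≤ 4 * n * (4 * n + 1) * ((n - 2) * B ^ 2) :=
          mul_le_mul_of_nonneg_left hN (mul_nonneg (by linarith) (by linarith))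
      _ = (4 * n * (4 * n + 1) * (n - 2)) * B ^ 2 := by ring
      _ ≤ ((4 * n - 1) ^ 2 * (n - 1)) * B ^ 2 := mul_le_mul_of_nonneg_right e3 (sq_nonneg _)
      _ = (n - 1) * ((4 * n - 1) * B) ^ 2 := by ring
      _ ≤ (n - 1) * (4 * n * Y) ^ 2 := mul_le_mul_of_nonneg_left e2 (by linarith)
      _ = (n - 1) * (16 * n ^ 2) * Y ^ 2 := by ring
  exact le_trans e0 (le_of_mul_le_mul_left e4 hpos)

/-- A number is close to the Eulerian number. -/
def Near (n k : ℕ) (x : ℤ) : Prop :=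
  0 ≤ x ∧ |x - eu n k| ≤ eu n k ∧ 4 * (n : ℤ) * |x - eu n k| ≤ eu n k + chi n k

theorem near_interior (n k : ℕ) (x : ℤ) (h : Near n k x) (hk : 1 ≤ k) (hkn : k + 2 ≤ n) :
    4 * (n : ℤ) * x ≤ (4 * n + 1) * eu n k ∧ (4 * (n : ℤ) - 1) * eu n k ≤ 4 * n * x := by
  obtain ⟨_, _, h1⟩ := h
  have hc : chi n k = 0 := by unfold chi; rw [if_neg]; omega
  rw [hc] at h1
  have h2 := abs_le.1 (le_refl |x - eu n k|)
  have hn0 : (0 : ℤ) ≤ 4 * n := by positivity
  have h3 := mul_le_mul_of_nonneg_left h2.2 hn0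
  have h4 := mul_le_mul_of_nonneg_left h2.1 hn0
  constructor <;> linarith

theorem near_sync (n k : ℕ) (hn : 12 ≤ n) (hkn : k + 3 ≤ n) (X Y Z : ℤ)
    (hX : Near n k X) (hY : Near n (k + 1) Y) (hZ : Near n (k + 2) Z) : X * Z ≤ Y ^ 2 := by
  have hn' : (12 : ℤ) ≤ n := by exact_mod_cast hn
  have hNew := eu_newton n k
  have hYi := near_interior n (k + 1) Y hY (by omega) (by omega)
  have hkn' : (k : ℤ) + 3 ≤ n := by exact_mod_cast hkn
  have hk0 : (0 : ℤ) ≤ k := Int.natCast_nonneg k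
  rcases Nat.eq_zero_or_pos k with h0 | hpos
  · -- left end
    subst h0
    have hZi := near_interior n 2 Z hZ (by omega) (by omega)
    have hX2 : X ≤ 2 := by
      obtain ⟨_, h1, _⟩ := hX
      rw [eu_zero_right] at h1
      have := (abs_le.1 h1).2
      linarith
    apply sync_arith_end n (eu n 1) (eu n 2) X Y Z hn' (eu_nonneg _ _) (eu_nonneg _ _) hZ.1 _
      hX2 hZi.1 hYi.2
    rw [eu_zero_right] at hNew
    push_cast at hNew
    linarith
  · rcases Nat.eq_or_lt_of_le hkn with htop | hlt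
    · -- right end
      have e1 : eu n (k + 2) = 1 := by
        rw [eu_symm n (k + 2) 0 (by omega), eu_zero_right]
      have hXi := near_interior n k X hX hpos (by omega)
      have hZ2 : Z ≤ 2 := by
        obtain ⟨_, h1, _⟩ := hZ
        rw [e1] at h1
        have := (abs_le.1 h1).2
        linarith
      rw [mul_comm]
      apply sync_arith_end n (eu n (k + 1)) (eu n k) Z Y X hn' (eu_nonneg _ _) (eu_nonneg _ _)
        hX.1 _ hZ2 hXi.1 hYi.2
      have hkz : (n : ℤ) = k + 3 := by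
        have : ((k + 3 : ℕ) : ℤ) = n := by exact_mod_cast htop
        push_cast at this; linarith
      rw [e1, hkz] at hNew
      rw [hkz]
      linarith
    · have hXi := near_interior n k X hX hpos (by omega)
      have hZi := near_interior n (k + 2) Z hZ (by omega) (by omega)
      apply sync_arith_mid n ((k : ℤ) + 1) (eu n k) (eu n (k + 1)) (eu n (k + 2)) X Y Z hn'
        (by linarith) (by linarith) (eu_nonneg _ _) (eu_nonneg _ _) (eu_nonneg _ _) hX.1 hZ.1 _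
        hXi.1 hZi.1 hYi.2
      refine le_trans (le_of_eq ?_) (le_trans hNew (le_of_eq ?_)) <;> ring

/-- Small cases, checked by evaluation. -/
theorem small_sync : ∀ n ∈ Finset.range 12, ∀ k ∈ Finset.range 12, k + 3 ≤ n →
    (max (eu n k + ds n k) (eu n k + es n k) * max (eu n (k + 2) + ds n (k + 2))
      (eu n (k + 2) + es n (k + 2)) ≤ (min (eu n (k + 1) + ds n (k + 1))
        (eu n (k + 1) + es n (k + 1))) ^ 2) ∧
    (max (eu n k - ds n k) (eu n k - es n k) * max (eu n (k + 2) - ds n (k + 2))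
      (eu n (k + 2) - es n (k + 2)) ≤ (min (eu n (k + 1) - ds n (k + 1))
        (eu n (k + 1) - es n (k + 1))) ^ 2) := by
  decide +kernel

end Pool.Agent.H25.Sync
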