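import Mathlib
import Pool.Agent.H25.Sync3

set_option autoImplicit false

open Equiv Finset

namespace Pool.Agent.H25.Sync

/-- Number of excedances. -/
def exc {n : ℕ} (π : Perm (Fin n)) : ℕ := (univ.filter (fun i => i < π i)).card

/-- Number of descents. -/
def des {n : ℕ} (π : Perm (Fin n)) : ℕ :=
  (univ.filter (fun i : Fin n => ∃ h : (i : ℕ) + 1 < n, π ⟨(i : ℕ) + 1, h⟩ < π i)).card

/-! ### Excedances -/

theorem exc_decompose_zero {n : ℕ} (e : Perm (Fin n)) :
    exc (Perm.decomposeFin.symm (0, e)) = exc e := by
  unfold exc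
  rw [Finset.card_filter, Finset.card_filter, Fin.sum_univ_succ]
  simp [Perm.decomposeFin_symm_apply_zero, Perm.decomposeFin_symm_apply_succ]

theorem exc_decompose_succ {n : ℕ} (e : Perm (Fin n)) (x : Fin n) :
    exc (Perm.decomposeFin.symm ((e x).succ, e)) = if x < e x then exc e else exc e + 1 := by
  unfold exc
  rw [Finset.card_filter, Finset.card_filter, Fin.sum_univ_succ]
  rw [Perm.decomposeFin_symm_apply_zero, if_pos (Fin.succ_pos _)]
  have h : ∀ y : Fin n, (if y.succ < Perm.decomposeFin.symm ((e x).succ, e) y.succ then 1 else 0)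
      = if y = x then 0 else (if y < e y then 1 else 0) := by
    intro y
    rw [Perm.decomposeFin_symm_apply_succ]
    by_cases hy : y = x
    · subst hy
      rw [Equiv.swap_apply_right, if_neg (Fin.not_lt_zero _), if_pos rfl]
    · rw [if_neg hy, Equiv.swap_apply_of_ne_of_ne (Fin.succ_ne_zero _)
        (fun h => hy (e.injective (Fin.succ_injective _ h)))]
      simp
  simp_rw [h]
  rw [← Finset.add_sum_erase univ (fun y => if y = x then 0 else (if y < e y then 1 else 0))
    (Finset.mem_univ x), ← Finset.add_sum_erase univ (fun y => if y < e y then 1 else 0)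
    (Finset.mem_univ x)]
  have h2 : ∑ y ∈ univ.erase x, (if y = x then 0 else (if y < e y then 1 else 0))
      = ∑ y ∈ univ.erase x, (if y < e y then 1 else 0) := by
    apply Finset.sum_congr rfl
    intro y hy
    rw [if_neg (Finset.ne_of_mem_erase hy)]
  rw [h2]
  split_ifs <;> simp <;> omega

theorem sum_exc {n : ℕ} (F : ℤˣ → ℕ → ℤ) :
    ∑ π : Perm (Fin (n + 1)), F (Perm.sign π) (exc π)
      = ∑ σ : Perm (Fin n), (F (Perm.sign σ) (exc σ) + exc σ * F (-Perm.sign σ) (exc σ)
        + ((n : ℤ) - exc σ) * F (-Perm.sign σ) (exc σ + 1)) := by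
  rw [← (Perm.decomposeFin (n := n)).symm.sum_comp, Fintype.sum_prod_type, Finset.sum_comm]
  apply Finset.sum_congr rfl
  intro e _
  rw [Fin.sum_univ_succ]
  have h0 : F (Perm.sign (Perm.decomposeFin.symm (0, e)))
      (exc (Perm.decomposeFin.symm (0, e))) = F (Perm.sign e) (exc e) := by
    rw [exc_decompose_zero, Perm.decomposeFin.symm_sign]
    simp
  rw [h0, add_assoc]
  congr 1
  rw [← Equiv.sum_comp e]
  have h1 : ∀ x : Fin n, F (Perm.sign (Perm.decomposeFin.symm ((e x).succ, e)))
      (exc (Perm.decomposeFin.symm ((e x).succ, e)))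
      = if x < e x then F (-Perm.sign e) (exc e) else F (-Perm.sign e) (exc e + 1) := by
    intro x
    rw [exc_decompose_succ, Perm.decomposeFin.symm_sign, if_neg (Fin.succ_ne_zero _)]
    split_ifs <;> simp
  simp_rw [h1]
  rw [Finset.sum_ite]
  simp only [Finset.sum_const, nsmul_eq_mul]
  congr 1
  congr 1
  have h2 := Finset.card_filter_add_card_filter_not (s := (univ : Finset (Fin n)))
    (fun x => x < e x)
  rw [Finset.card_univ, Fintype.card_fin] at h2
  have h3 : ((univ.filter (fun x => x < e x)).card : ℤ)
      + ((univ.filter (fun x => ¬ x < e x)).card : ℤ) = n := by exact_mod_cast h2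
  unfold exc
  linarith

/-- Total and signed counts by excedances. -/
theorem exc_total (n k : ℕ) :
    ∑ π : Perm (Fin n), (if exc π = k then (1 : ℤ) else 0) = eu n k := by
  induction n generalizing k with
  | zero =>
    rcases k with _ | k
    · simp [exc, eu]
    · simp [exc, eu]
  | succ n ih =>
    rw [sum_exc (fun _ j => if j = k then (1 : ℤ) else 0)]
    rcases k with _ | k
    · rw [eu, ← ih 0]
      apply Finset.sum_congr rfl
      intro σ _
      by_cases h : exc σ = 0
      · simp [h]
      · simp [h]
    · rw [eu, ← ih (k + 1), ← ih k, Finset.mul_sum, Finset.mul_sum, ← Finset.sum_add_distrib]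
      apply Finset.sum_congr rfl
      intro σ _
      by_cases h : exc σ = k + 1
      · have h2 : ¬ exc σ = k := by omega
        simp [h]; ring
      · by_cases h2 : exc σ = k
        · simp [h2]
        · simp [h, h2]

theorem exc_signed (n k : ℕ) :
    ∑ π : Perm (Fin n), (if exc π = k then ((Perm.sign π : ℤˣ) : ℤ) else 0) = es n k := by
  induction n generalizing k with
  | zero =>
    rcases k with _ | k
    · simp [exc, es]
    · simp [exc, es]
  | succ n ih =>
    rw [sum_exc (fun s j => if j = k then ((s : ℤˣ) : ℤ) else 0)]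
    rcases k with _ | k
    · rw [es, ← ih 0]
      apply Finset.sum_congr rfl
      intro σ _
      by_cases h : exc σ = 0
      · simp [h]
      · simp [h]
    · rw [es, ← ih (k + 1), ← ih k, Finset.mul_sum, Finset.mul_sum, ← Finset.sum_sub_distrib]
      apply Finset.sum_congr rfl
      intro σ _
      by_cases h : exc σ = k + 1
      · have h2 : ¬ exc σ = k := by omega
        simp [h]; ring
      · by_cases h2 : exc σ = k
        · simp [h2]
        · simp [h, h2]

end Pool.Agent.H25.Sync
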