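import Mathlib
import Pool.Agent.H25.Sync4

set_option autoImplicit false

open Equiv Finset

namespace Pool.Agent.H25.Sync

/-- Descents of the first `m + 1` values of a sequence. -/
def desN (m : ℕ) (g : ℕ → ℕ) : ℕ := ((range m).filter (fun i => g (i + 1) < g i)).card

theorem desN_succ (m : ℕ) (g : ℕ → ℕ) :
    desN (m + 1) g = desN m g + if g (m + 1) < g m then 1 else 0 := by
  unfold desN
  rw [Finset.range_add_one, Finset.filter_insert]
  split_ifs with h
  · rw [Finset.card_insert_of_notMem]
    simp
  · rfl

theorem desN_congr (m : ℕ) (g g' : ℕ → ℕ) (h : ∀ i, i < m → (g (i + 1) < g i ↔ g' (i + 1) < g' i)) :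
    desN m g = desN m g' := by
  unfold desN
  congr 1
  apply Finset.filter_congr
  intro i hi
  exact h i (Finset.mem_range.1 hi)

/-- Effect of inserting a new minimum at position `p`. -/
theorem desN_insert (n p : ℕ) (hp : p ≤ n) (s t : ℕ → ℕ) (h1 : ∀ i, i < p → t i = s i + 1)
    (h2 : t p = 0) (h3 : ∀ i, p ≤ i → i < n → t (i + 1) = s i + 1) :
    desN n t = desN (n - 1) s + (if p = 0 then 0 else if p = n then 1 else
      if s p < s (p - 1) then 0 else 1) := by
  -- base case n = p
  have hbase : desN p t = desN (p - 1) s + if p = 0 then 0 else 1 := by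
    rcases p with _ | p
    · simp [desN]
    · rw [desN_succ, h2, h1 p (by omega)]
      simp only [Nat.add_sub_cancel]
      rw [desN_congr p t s]
      · simp
      · intro i hi
        rw [h1 (i + 1) (by omega), h1 i (by omega)]
        omega
  obtain ⟨j, rfl⟩ : ∃ j, n = p + j := ⟨n - p, by omega⟩
  clear hp
  rcases j with _ | j
  · rw [Nat.add_zero, hbase, if_pos (rfl : p = p)]
  · have key : ∀ j', j' ≤ j → desN (p + (j' + 1)) t = desN (p + j') s
        + (if p = 0 then 0 else if s p < s (p - 1) then 0 else 1) := by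
      intro j' hj'
      induction j' with
      | zero =>
        rw [zero_add, desN_succ, h2, if_neg (Nat.not_lt_zero _), add_zero, add_zero, hbase]
        rcases p with _ | p
        · simp
        · rw [desN_succ]
          simp only [Nat.add_sub_cancel, Nat.succ_ne_zero, if_false]
          split_ifs <;> omega
      | succ j' ih =>
        have ih' := ih (by omega)
        rw [show p + (j' + 1 + 1) = (p + (j' + 1)) + 1 by ring, desN_succ, ih',
          show p + (j' + 1) = (p + j') + 1 by ring, desN_succ (p + j') s,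
          h3 (p + j' + 1) (by omega) (by omega), h3 (p + j') (by omega) (by omega)]
        simp only [Nat.add_lt_add_iff_right]
        ring
    have := key j le_rfl
    rw [this, show p + (j + 1) - 1 = p + j by omega]
    congr 1
    have hne : ¬ p = p + (j + 1) := by omega
    rw [if_neg hne]

/-- Value sequence of a permutation. -/
def val {n : ℕ} (π : Perm (Fin n)) (i : ℕ) : ℕ := if h : i < n then (π ⟨i, h⟩ : ℕ) else 0

theorem des_eq {n : ℕ} (π : Perm (Fin n)) : des π = desN (n - 1) (val π) := by
  unfold des desN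
  symm
  apply Finset.card_bij (fun i hi => (⟨i, by
    have := Finset.mem_range.1 (Finset.mem_filter.1 hi).1; omega⟩ : Fin n))
  · intro i hi
    have h1 := Finset.mem_range.1 (Finset.mem_filter.1 hi).1
    have h2 := (Finset.mem_filter.1 hi).2
    rw [Finset.mem_filter]
    refine ⟨Finset.mem_univ _, by simp only; omega, ?_⟩
    unfold val at h2
    rw [dif_pos (by omega), dif_pos (by omega)] at h2
    exact h2
  · intro i hi j hj hij
    exact congrArg Fin.val hij
  · intro i hi
    obtain ⟨h1, h2⟩ := (Finset.mem_filter.1 hi).2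
    refine ⟨i, ?_, rfl⟩
    rw [Finset.mem_filter, Finset.mem_range]
    refine ⟨by omega, ?_⟩
    unfold val
    rw [dif_pos h1, dif_pos i.isLt]
    exact h2

/-- Insert a new minimum at position `p`. -/
def ins {n : ℕ} (p : Fin (n + 1)) (σ : Perm (Fin n)) : Perm (Fin (n + 1)) :=
  Perm.decomposeFin.symm (0, σ) * Fin.cycleRange p

theorem ins_self {n : ℕ} (p : Fin (n + 1)) (σ : Perm (Fin n)) : ins p σ p = 0 := by
  unfold ins
  rw [Perm.mul_apply, Fin.cycleRange_self, Perm.decomposeFin_symm_apply_zero]

theorem ins_succAbove {n : ℕ} (p : Fin (n + 1)) (σ : Perm (Fin n)) (j : Fin n) :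
    ins p σ (p.succAbove j) = (σ j).succ := by
  unfold ins
  rw [Perm.mul_apply, Fin.cycleRange_succAbove, Perm.decomposeFin_symm_apply_succ]
  simp

theorem sign_ins {n : ℕ} (p : Fin (n + 1)) (σ : Perm (Fin n)) :
    Perm.sign (ins p σ) = (-1) ^ (p : ℕ) * Perm.sign σ := by
  unfold ins
  rw [Perm.sign_mul, Perm.decomposeFin.symm_sign, Fin.sign_cycleRange]
  simp [mul_comm]

theorem ins_bijective (n : ℕ) :
    Function.Bijective (fun x : Fin (n + 1) × Perm (Fin n) => ins x.1 x.2) := by
  rw [Fintype.bijective_iff_injective_and_card]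
  constructor
  · rintro ⟨p, σ⟩ ⟨q, τ⟩ h
    simp only at h
    have hpq : p = q := by
      have h1 : ins q τ p = 0 := by rw [← h]; exact ins_self p σ
      have h2 : ins q τ q = 0 := ins_self q τ
      exact (ins q τ).injective (h1.trans h2.symm)
    subst hpq
    unfold ins at h
    have h3 := mul_right_cancel h
    have h4 := Perm.decomposeFin.symm.injective h3
    rw [Prod.mk.injEq] at h4
    rw [h4.2]
  · rw [Fintype.card_prod, Fintype.card_perm, Fintype.card_perm, Fintype.card_fin,
      Fintype.card_fin, Nat.factorial_succ]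

theorem sum_ins {n : ℕ} (F : Perm (Fin (n + 1)) → ℤ) :
    ∑ π, F π = ∑ σ : Perm (Fin n), ∑ p : Fin (n + 1), F (ins p σ) := by
  rw [← (ins_bijective n).sum_comp F, Fintype.sum_prod_type, Finset.sum_comm]

theorem val_ins {n : ℕ} (p : Fin (n + 1)) (σ : Perm (Fin n)) :
    (∀ i, i < (p : ℕ) → val (ins p σ) i = val σ i + 1) ∧ val (ins p σ) p = 0 ∧
    (∀ i, (p : ℕ) ≤ i → i < n → val (ins p σ) (i + 1) = val σ i + 1) := by
  refine ⟨?_, ?_, ?_⟩
  · intro i hi
    have hp := p.isLt
    unfold val
    rw [dif_pos (show i < n + 1 by omega), dif_pos (show i < n by omega)]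
    have h : (⟨i, by omega⟩ : Fin (n + 1)) = p.succAbove ⟨i, by omega⟩ := by
      rw [Fin.succAbove_of_castSucc_lt]
      · rfl
      · rw [Fin.lt_def]; exact hi
    rw [h, ins_succAbove]
    rfl
  · unfold val
    rw [dif_pos p.isLt]
    have := ins_self p σ
    simp only [Fin.eta]
    rw [this]
    rfl
  · intro i hi hin
    unfold val
    rw [dif_pos (show i + 1 < n + 1 by omega), dif_pos hin]
    have h : (⟨i + 1, by omega⟩ : Fin (n + 1)) = p.succAbove ⟨i, by omega⟩ := by
      rw [Fin.succAbove_of_le_castSucc]
      · rfl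
      · rw [Fin.le_def]; exact hi
    rw [h, ins_succAbove]
    rfl

theorem des_ins {n : ℕ} (p : Fin (n + 1)) (σ : Perm (Fin n)) :
    des (ins p σ) = des σ + (if (p : ℕ) = 0 then 0 else if (p : ℕ) = n then 1 else
      if val σ p < val σ (p - 1) then 0 else 1) := by
  rw [des_eq, des_eq, Nat.add_sub_cancel]
  obtain ⟨h1, h2, h3⟩ := val_ins p σ
  exact desN_insert n p (by have := p.isLt; omega) _ _ h1 h2 h3

theorem des_le {n : ℕ} (σ : Perm (Fin n)) : des σ ≤ n - 1 := by
  rw [des_eq]
  unfold desN
  refine le_trans (Finset.card_filter_le _ _) ?_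
  rw [Finset.card_range]

theorem sum_des_ins {n : ℕ} (σ : Perm (Fin n)) (G : ℕ → ℤ) :
    ∑ p : Fin (n + 1), G (des (ins p σ)) = (1 + (des σ : ℤ)) * G (des σ)
      + ((n : ℤ) - des σ) * G (des σ + 1) := by
  simp_rw [des_ins]
  rw [Fin.sum_univ_eq_sum_range (fun i => G (des σ + (if i = 0 then 0 else if i = n then 1 else
      if val σ i < val σ (i - 1) then 0 else 1)))]
  rcases n with _ | n
  · have h0 : des σ = 0 := by have := des_le σ; omega
    simp [h0]
  · rw [Finset.sum_range_succ, Finset.sum_range_succ']
    simp only [if_true, add_zero]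
    have h1 : ∑ i ∈ range n, G (des σ + (if i + 1 = 0 then 0 else if i + 1 = n + 1 then 1 else
        if val σ (i + 1) < val σ (i + 1 - 1) then 0 else 1))
        = ∑ i ∈ range n, if val σ (i + 1) < val σ i then G (des σ) else G (des σ + 1) := by
      apply Finset.sum_congr rfl
      intro i hi
      have hi' := Finset.mem_range.1 hi
      rw [if_neg (by omega), if_neg (by omega), Nat.add_sub_cancel]
      split_ifs <;> simp
    rw [h1, Finset.sum_ite]
    simp only [Finset.sum_const, nsmul_eq_mul]
    have h2 := Finset.card_filter_add_card_filter_not (s := range n)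
      (fun i => val σ (i + 1) < val σ i)
    rw [Finset.card_range] at h2
    have h3 : ((range n).filter (fun i => val σ (i + 1) < val σ i)).card = des σ := by
      rw [des_eq]; rfl
    rw [h3] at h2 ⊢
    have h4 : (((range n).filter (fun i => ¬ val σ (i + 1) < val σ i)).card : ℤ)
        = (n : ℤ) - des σ := by
      have : ((des σ + ((range n).filter (fun i => ¬ val σ (i + 1) < val σ i)).card : ℕ) : ℤ)
          = (n : ℕ) := by exact_mod_cast h2
      push_cast at this
      linarith
    rw [h4, if_neg (Nat.succ_ne_zero n)]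
    push_cast
    ring

/-- Total counts by descents. -/
theorem des_total (n k : ℕ) :
    ∑ π : Perm (Fin n), (if des π = k then (1 : ℤ) else 0) = eu n k := by
  induction n generalizing k with
  | zero =>
    rcases k with _ | k
    · simp [des, eu]
    · simp [des, eu]
  | succ n ih =>
    rw [sum_ins]
    simp_rw [sum_des_ins _ (fun j => if j = k then (1 : ℤ) else 0)]
    rcases k with _ | k
    · rw [eu, ← ih 0]
      apply Finset.sum_congr rfl
      intro σ _
      by_cases h : des σ = 0
      · simp [h]
      · simp [h]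
    · rw [eu, ← ih (k + 1), ← ih k, Finset.mul_sum, Finset.mul_sum, ← Finset.sum_add_distrib]
      apply Finset.sum_congr rfl
      intro σ _
      by_cases h : des σ = k + 1
      · have h2 : ¬ des σ = k := by omega
        simp [h]; ring
      · by_cases h2 : des σ = k
        · simp [h2]
        · simp [h, h2]

end Pool.Agent.H25.Sync
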