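import Mathlib
import Pool.Agent.H25.Sync5

set_option autoImplicit false

open Equiv Finset

namespace Pool.Agent.H25.Sync

/-- The positions of the values `0` and `1` are neighbouring. -/
def Adj01 {n : ℕ} (π : Perm (Fin (n + 2))) : Prop :=
  ((π.symm 0 : Fin (n + 2)) : ℕ) + 1 = (π.symm 1 : Fin (n + 2)) ∨
  ((π.symm 1 : Fin (n + 2)) : ℕ) + 1 = (π.symm 0 : Fin (n + 2))

instance {n : ℕ} (π : Perm (Fin (n + 2))) : Decidable (Adj01 π) := by
  unfold Adj01; infer_instance

theorem swap01_lt {n : ℕ} (a b : Fin (n + 2)) (h : ¬ (a = 0 ∧ b = 1)) (h' : ¬ (a = 1 ∧ b = 0)) :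
    swap (0 : Fin (n + 2)) 1 a < swap (0 : Fin (n + 2)) 1 b ↔ a < b := by
  by_cases hab : a = b
  · subst hab; simp
  have h01 : (0 : Fin (n + 2)) ≠ 1 := by
    intro h; have := congrArg Fin.val h; simp at this
  have key : ∀ c : Fin (n + 2), c ≠ 0 → c ≠ 1 → (1 : Fin (n + 2)) < c := by
    intro c h0 h1
    rw [Fin.lt_def]
    have e0 : (c : ℕ) ≠ 0 := fun h => h0 (Fin.ext h)
    have e1 : (c : ℕ) ≠ 1 := fun h => h1 (Fin.ext (by simpa using h))
    have : ((1 : Fin (n + 2)) : ℕ) = 1 := rfl
    omega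
  have k0 : ∀ c : Fin (n + 2), c ≠ 0 → (0 : Fin (n + 2)) < c := fun c hc => Fin.pos_iff_ne_zero.2 hc
  by_cases ha0 : a = 0
  · subst ha0
    have hb1 : b ≠ 1 := fun hb => h ⟨rfl, hb⟩
    have hb0 : b ≠ 0 := fun hb => hab hb.symm
    rw [swap_apply_left, swap_apply_of_ne_of_ne hb0 hb1]
    exact ⟨fun _ => k0 b hb0, fun _ => key b hb0 hb1⟩
  · by_cases ha1 : a = 1
    · subst ha1
      have hb0 : b ≠ 0 := fun hb => h' ⟨rfl, hb⟩
      have hb1 : b ≠ 1 := fun hb => hab hb.symm
      rw [swap_apply_right, swap_apply_of_ne_of_ne hb0 hb1]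
      exact ⟨fun _ => key b hb0 hb1, fun _ => k0 b hb0⟩
    · rw [swap_apply_of_ne_of_ne ha0 ha1]
      by_cases hb0 : b = 0
      · subst hb0
        rw [swap_apply_left]
        exact ⟨fun h => absurd h (not_lt.2 (key a ha0 ha1).le), fun h => absurd h (Fin.not_lt_zero _)⟩
      · by_cases hb1 : b = 1
        · subst hb1
          rw [swap_apply_right]
          exact ⟨fun h => absurd h (Fin.not_lt_zero _), fun h => absurd h (not_lt.2 (key a ha0 ha1).le)⟩
        · rw [swap_apply_of_ne_of_ne hb0 hb1]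

theorem des_swap {n : ℕ} (π : Perm (Fin (n + 2))) (h : ¬ Adj01 π) :
    des (swap 0 1 * π) = des π := by
  unfold des
  congr 1
  apply Finset.filter_congr
  intro i _
  constructor
  · rintro ⟨h1, h2⟩
    refine ⟨h1, ?_⟩
    rw [Perm.mul_apply, Perm.mul_apply, swap01_lt] at h2
    · exact h2
    · rintro ⟨e0, e1⟩
      apply h
      right
      rw [← e0, ← e1, Equiv.symm_apply_apply, Equiv.symm_apply_apply]
    · rintro ⟨e0, e1⟩
      apply h
      left
      rw [← e0, ← e1, Equiv.symm_apply_apply, Equiv.symm_apply_apply]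
  · rintro ⟨h1, h2⟩
    refine ⟨h1, ?_⟩
    rw [Perm.mul_apply, Perm.mul_apply, swap01_lt]
    · exact h2
    · rintro ⟨e0, e1⟩
      apply h
      right
      rw [← e0, ← e1, Equiv.symm_apply_apply, Equiv.symm_apply_apply]
    · rintro ⟨e0, e1⟩
      apply h
      left
      rw [← e0, ← e1, Equiv.symm_apply_apply, Equiv.symm_apply_apply]

theorem adj_swap {n : ℕ} (π : Perm (Fin (n + 2))) : Adj01 (swap 0 1 * π) ↔ Adj01 π := by
  unfold Adj01
  have e0 : (swap 0 1 * π).symm 0 = π.symm 1 := by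
    rw [Equiv.symm_apply_eq, Perm.mul_apply, Equiv.apply_symm_apply, swap_apply_right]
  have e1 : (swap 0 1 * π).symm 1 = π.symm 0 := by
    rw [Equiv.symm_apply_eq, Perm.mul_apply, Equiv.apply_symm_apply, swap_apply_left]
  rw [e0, e1]
  exact or_comm

/-- Signed sums see only the permutations with neighbouring `0` and `1`. -/
theorem sum_signed_adj {n : ℕ} (f : ℕ → ℤ) :
    ∑ π : Perm (Fin (n + 2)), ((Perm.sign π : ℤˣ) : ℤ) * f (des π)
      = ∑ π : Perm (Fin (n + 2)), if Adj01 π then ((Perm.sign π : ℤˣ) : ℤ) * f (des π) else 0 := by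
  have h01 : (0 : Fin (n + 2)) ≠ 1 := by
    intro h; have := congrArg Fin.val h; simp at this
  have h0 : ∑ π : Perm (Fin (n + 2)),
      (if Adj01 π then 0 else ((Perm.sign π : ℤˣ) : ℤ) * f (des π)) = 0 := by
    set X := ∑ π : Perm (Fin (n + 2)),
      (if Adj01 π then 0 else ((Perm.sign π : ℤˣ) : ℤ) * f (des π)) with hX
    have h1 : X = -X := by
      have h2 : X = ∑ π : Perm (Fin (n + 2)),
        (if Adj01 (swap 0 1 * π) then 0 else
          ((Perm.sign (swap 0 1 * π) : ℤˣ) : ℤ) * f (des (swap 0 1 * π))) := by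
        rw [hX]
        exact (Equiv.sum_comp (Equiv.mulLeft (swap (0 : Fin (n + 2)) 1))
          (fun π => (if Adj01 π then 0 else ((Perm.sign π : ℤˣ) : ℤ) * f (des π)))).symm
      conv_lhs => rw [h2]
      rw [hX, ← Finset.sum_neg_distrib]
      apply Finset.sum_congr rfl
      intro π _
      by_cases h : Adj01 π
      · rw [if_pos ((adj_swap π).2 h), if_pos h, neg_zero]
      · rw [if_neg (fun h' => h ((adj_swap π).1 h')), if_neg h, des_swap π h, Perm.sign_mul,
          Perm.sign_swap h01]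
        simp
    linarith
  have h3 : ∀ π : Perm (Fin (n + 2)), ((Perm.sign π : ℤˣ) : ℤ) * f (des π)
      = (if Adj01 π then ((Perm.sign π : ℤˣ) : ℤ) * f (des π) else 0)
        + (if Adj01 π then 0 else ((Perm.sign π : ℤˣ) : ℤ) * f (des π)) := by
    intro π
    split_ifs <;> simp
  conv_lhs => rw [Finset.sum_congr rfl (fun π _ => h3 π)]
  rw [Finset.sum_add_distrib, h0, add_zero]

theorem symm_ins_zero {n : ℕ} (p : Fin (n + 1)) (σ : Perm (Fin n)) : (ins p σ).symm 0 = p := by
  rw [Equiv.symm_apply_eq, ins_self]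

theorem symm_ins_one {n : ℕ} (p : Fin (n + 2)) (τ : Perm (Fin (n + 1))) :
    (ins p τ).symm 1 = p.succAbove (τ.symm 0) := by
  rw [Equiv.symm_apply_eq, ins_succAbove, Equiv.apply_symm_apply]
  rfl

theorem adj_ins {n : ℕ} (p : Fin (n + 2)) (τ : Perm (Fin (n + 1))) :
    Adj01 (ins p τ) ↔ p = (τ.symm 0).castSucc ∨ p = (τ.symm 0).succ := by
  unfold Adj01
  rw [symm_ins_zero, symm_ins_one]
  set q := τ.symm 0 with hq
  rcases Fin.castSucc_lt_or_lt_succ p q with h | h
  · rw [Fin.succAbove_of_castSucc_lt _ _ h]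
    rw [Fin.lt_def] at h
    simp only [Fin.val_castSucc] at h ⊢
    constructor
    · rintro (h1 | h1)
      · omega
      · right; apply Fin.ext; rw [Fin.val_succ]; omega
    · rintro (h1 | h1)
      · rw [h1] at h; simp at h
      · right; rw [h1, Fin.val_succ]
  · rw [Fin.succAbove_of_lt_succ _ _ h]
    rw [Fin.lt_def, Fin.val_succ] at h
    simp only [Fin.val_succ]
    constructor
    · rintro (h1 | h1)
      · left; apply Fin.ext; rw [Fin.val_castSucc]; omega
      · omega
    · rintro (h1 | h1)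
      · left; rw [h1, Fin.val_castSucc]
      · rw [h1, Fin.val_succ] at h; omega

theorem val_min {n : ℕ} (τ : Perm (Fin (n + 1))) (i : ℕ) (hi : i < n + 1)
    (hne : i ≠ (τ.symm 0 : Fin (n + 1))) : 0 < val τ i := by
  unfold val
  rw [dif_pos hi]
  rw [Nat.pos_iff_ne_zero]
  intro h
  apply hne
  have h1 : τ ⟨i, hi⟩ = 0 := Fin.ext h
  rw [← h1, Equiv.symm_apply_apply]

theorem val_at_min {n : ℕ} (τ : Perm (Fin (n + 1))) : val τ (τ.symm 0 : Fin (n + 1)) = 0 := by
  unfold val
  rw [dif_pos (τ.symm 0).isLt]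
  simp

theorem des_ins_left {n : ℕ} (τ : Perm (Fin (n + 1))) :
    des (ins (τ.symm 0).castSucc τ) = des τ := by
  rw [des_ins]
  have hq := (τ.symm 0).isLt
  simp only [Fin.val_castSucc]
  by_cases h0 : ((τ.symm 0 : Fin (n + 1)) : ℕ) = 0
  · rw [if_pos h0]; rfl
  · rw [if_neg h0, if_neg (by omega), if_pos]
    · rfl
    · rw [val_at_min]
      exact val_min τ _ (by omega) (by omega)

theorem des_ins_right {n : ℕ} (τ : Perm (Fin (n + 1))) :
    des (ins (τ.symm 0).succ τ) = des τ + 1 := by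
  rw [des_ins]
  simp only [Fin.val_succ, Nat.add_sub_cancel]
  rw [if_neg (Nat.succ_ne_zero _), val_at_min]
  simp

theorem sum_signed_step {n : ℕ} (f : ℕ → ℤ) :
    ∑ π : Perm (Fin (n + 2)), ((Perm.sign π : ℤˣ) : ℤ) * f (des π)
      = ∑ σ : Perm (Fin n), ((Perm.sign σ : ℤˣ) : ℤ) *
        ((1 + (des σ : ℤ)) * (f (des σ) - f (des σ + 1))
          + ((n : ℤ) - des σ) * (f (des σ + 1) - f (des σ + 2))) := by
  rw [sum_signed_adj, sum_ins]
  have h1 : ∀ τ : Perm (Fin (n + 1)), ∑ p : Fin (n + 2),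
      (if Adj01 (ins p τ) then ((Perm.sign (ins p τ) : ℤˣ) : ℤ) * f (des (ins p τ)) else 0)
      = (-1) ^ ((τ.symm 0 : Fin (n + 1)) : ℕ) * ((Perm.sign τ : ℤˣ) : ℤ)
        * (f (des τ) - f (des τ + 1)) := by
    intro τ
    set q := τ.symm 0 with hq
    have hne : q.castSucc ≠ q.succ := by
      intro h
      have := congrArg Fin.val h
      simp at this
    have h2 : ∀ p : Fin (n + 2),
        (if Adj01 (ins p τ) then ((Perm.sign (ins p τ) : ℤˣ) : ℤ) * f (des (ins p τ)) else 0)
        = (if p = q.castSucc then ((Perm.sign (ins p τ) : ℤˣ) : ℤ) * f (des (ins p τ)) else 0)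
          + (if p = q.succ then ((Perm.sign (ins p τ) : ℤˣ) : ℤ) * f (des (ins p τ)) else 0) := by
      intro p
      by_cases ha : p = q.castSucc
      · rw [if_pos ((adj_ins p τ).2 (Or.inl ha)), if_pos ha,
          if_neg (fun h => hne (ha.symm.trans h)), add_zero]
      · by_cases hb : p = q.succ
        · rw [if_pos ((adj_ins p τ).2 (Or.inr hb)), if_neg ha, if_pos hb, zero_add]
        · rw [if_neg (fun h => ((adj_ins p τ).1 h).elim ha hb), if_neg ha, if_neg hb, add_zero]
    rw [Finset.sum_congr rfl (fun p _ => h2 p), Finset.sum_add_distrib,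
      Finset.sum_ite_eq' univ q.castSucc, Finset.sum_ite_eq' univ q.succ,
      if_pos (Finset.mem_univ _), if_pos (Finset.mem_univ _), sign_ins, sign_ins]
    have e1 : des (ins q.castSucc τ) = des τ := des_ins_left τ
    have e2 : des (ins q.succ τ) = des τ + 1 := des_ins_right τ
    rw [e1, e2, Fin.val_castSucc, Fin.val_succ]
    push_cast
    ring
  simp_rw [h1]
  rw [sum_ins]
  apply Finset.sum_congr rfl
  intro σ _
  have h3 : ∀ p : Fin (n + 1), (-1 : ℤ) ^ (((ins p σ).symm 0 : Fin (n + 1)) : ℕ)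
      * ((Perm.sign (ins p σ) : ℤˣ) : ℤ) * (f (des (ins p σ)) - f (des (ins p σ) + 1))
      = ((Perm.sign σ : ℤˣ) : ℤ) * (f (des (ins p σ)) - f (des (ins p σ) + 1)) := by
    intro p
    rw [symm_ins_zero, sign_ins]
    push_cast
    have : (-1 : ℤ) ^ (p : ℕ) * ((-1) ^ (p : ℕ) * ((Perm.sign σ : ℤˣ) : ℤ))
        = ((Perm.sign σ : ℤˣ) : ℤ) := by
      rw [← mul_assoc, ← pow_add, ← two_mul, pow_mul]
      simp
    rw [this]
  rw [Finset.sum_congr rfl (fun p _ => h3 p), ← Finset.mul_sum,
    sum_des_ins σ (fun j => f j - f (j + 1))]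

/-- Signed counts by descents. -/
theorem des_signed (n k : ℕ) :
    ∑ π : Perm (Fin n), (if des π = k then ((Perm.sign π : ℤˣ) : ℤ) else 0) = ds n k := by
  induction n using Nat.strong_induction_on generalizing k with
  | _ n ih =>
    rcases n with _ | _ | n
    · rcases k with _ | k
      · simp [des, ds]
      · simp [des, ds]
    · have h1 : ∀ π : Perm (Fin 1), des π = 0 := by
        intro π
        have := des_le π
        omega
      have h2 : ∀ π : Perm (Fin 1), π = 1 := fun π => Subsingleton.elim _ _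
      rcases k with _ | k
      · simp [h1, ds]
      · simp [h1, ds]
    · have hstep := sum_signed_step (n := n) (fun j => if j = k then (1 : ℤ) else 0)
      have e : ∀ m (π : Perm (Fin m)) (k : ℕ), (if des π = k then ((Perm.sign π : ℤˣ) : ℤ) else 0)
          = ((Perm.sign π : ℤˣ) : ℤ) * (if des π = k then (1 : ℤ) else 0) := by
        intro m π k
        split_ifs <;> simp
      simp_rw [e]
      rw [hstep]
      have ih' := fun k => ih n (by omega) k
      simp_rw [e] at ih'
      rcases k with _ | _ | k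
      · rw [ds, ← ih' 0]
        apply Finset.sum_congr rfl
        intro σ _
        by_cases h : des σ = 0
        · simp [h]
        · simp [h]
      · rw [ds, ← ih' 1, ← ih' 0, Finset.mul_sum, Finset.mul_sum, ← Finset.sum_add_distrib]
        apply Finset.sum_congr rfl
        intro σ _
        by_cases h : des σ = 0
        · simp [h]; ring
        · by_cases h2 : des σ = 1
          · simp [h2]; ring
          · simp [h, h2]
      · rw [ds, ← ih' (k + 2), ← ih' (k + 1), ← ih' k, Finset.mul_sum, Finset.mul_sum,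
          Finset.mul_sum, ← Finset.sum_add_distrib, ← Finset.sum_sub_distrib]
        apply Finset.sum_congr rfl
        intro σ _
        by_cases h : des σ = k
        · have a1 : ¬ (k = k + 1 + 1) := by omega
          simp [h, a1]; ring
        · by_cases h2 : des σ = k + 1
          · simp [h2]; ring
          · by_cases h3 : des σ = k + 2
            · simp [h3]; ring
            · simp [h, h2, h3]

end Pool.Agent.H25.Sync
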