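import Mathlib
import Pool.Agent.H25.Sync6

set_option autoImplicit false

open Equiv Finset

namespace Pool.Agent.H25.Sync

/-- Counts of permutations with given sign and given value of a statistic. -/
def cnt {n : ℕ} (st : Perm (Fin n) → ℕ) (ε : ℤˣ) (k : ℕ) : ℕ :=
  (univ.filter (fun π : Perm (Fin n) => Perm.sign π = ε ∧ st π = k)).card

theorem cnt_plus {n : ℕ} (st : Perm (Fin n) → ℕ) (k : ℕ) :
    (2 * cnt st 1 k : ℤ) = ∑ π : Perm (Fin n), (if st π = k then (1 : ℤ) else 0)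
      + ∑ π : Perm (Fin n), (if st π = k then ((Perm.sign π : ℤˣ) : ℤ) else 0) := by
  unfold cnt
  rw [Finset.card_filter, ← Finset.sum_add_distrib]
  push_cast
  rw [Finset.mul_sum]
  apply Finset.sum_congr rfl
  intro π _
  rcases Int.units_eq_one_or (Perm.sign π) with h | h
  · by_cases h2 : st π = k
    · simp [h, h2]
    · simp [h2]
  · have h3 : ¬ ((-1 : ℤˣ) = 1) := by decide
    by_cases h2 : st π = k
    · simp [h, h2, h3]
    · simp [h2]

theorem cnt_minus {n : ℕ} (st : Perm (Fin n) → ℕ) (k : ℕ) :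
    (2 * cnt st (-1) k : ℤ) = ∑ π : Perm (Fin n), (if st π = k then (1 : ℤ) else 0)
      - ∑ π : Perm (Fin n), (if st π = k then ((Perm.sign π : ℤˣ) : ℤ) else 0) := by
  unfold cnt
  rw [Finset.card_filter, ← Finset.sum_sub_distrib]
  push_cast
  rw [Finset.mul_sum]
  apply Finset.sum_congr rfl
  intro π _
  rcases Int.units_eq_one_or (Perm.sign π) with h | h
  · have h3 : ¬ ((1 : ℤˣ) = -1) := by decide
    by_cases h2 : st π = k
    · simp [h, h2, h3]
    · simp [h2]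
  · by_cases h2 : st π = k
    · simp [h, h2]
    · simp [h2]

theorem des_plus (n k : ℕ) : (2 * cnt (n := n) des 1 k : ℤ) = eu n k + ds n k := by
  rw [cnt_plus, des_total, des_signed]

theorem des_minus (n k : ℕ) : (2 * cnt (n := n) des (-1) k : ℤ) = eu n k - ds n k := by
  rw [cnt_minus, des_total, des_signed]

theorem exc_plus (n k : ℕ) : (2 * cnt (n := n) exc 1 k : ℤ) = eu n k + es n k := by
  rw [cnt_plus, exc_total, exc_signed]

theorem exc_minus (n k : ℕ) : (2 * cnt (n := n) exc (-1) k : ℤ) = eu n k - es n k := by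
  rw [cnt_minus, exc_total, exc_signed]

theorem ds_le (n k : ℕ) : |ds n k| ≤ eu n k := by
  have h1 := des_plus n k
  have h2 := des_minus n k
  have h3 : (0 : ℤ) ≤ 2 * cnt (n := n) des 1 k := by positivity
  have h4 : (0 : ℤ) ≤ 2 * cnt (n := n) des (-1) k := by positivity
  exact abs_le.2 ⟨by linarith, by linarith⟩

theorem es_le (n k : ℕ) : |es n k| ≤ eu n k := by
  have h1 := exc_plus n k
  have h2 := exc_minus n k
  have h3 : (0 : ℤ) ≤ 2 * cnt (n := n) exc 1 k := by positivity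
  have h4 : (0 : ℤ) ≤ 2 * cnt (n := n) exc (-1) k := by positivity
  exact abs_le.2 ⟨by linarith, by linarith⟩

theorem near_of (n k : ℕ) (hn : 12 ≤ n) (x : ℤ)
    (h : x = ds n k ∨ x = es n k ∨ x = - ds n k ∨ x = - es n k) : Near n k (eu n k + x) := by
  have hx : |x| ≤ eu n k ∧ 4 * (n : ℤ) * |x| ≤ eu n k + chi n k := by
    rcases h with h | h | h | h
    · rw [h]; exact ⟨ds_le n k, ds_bound n k hn⟩
    · rw [h]; exact ⟨es_le n k, es_bound n k hn⟩
    · rw [h, abs_neg]; exact ⟨ds_le n k, ds_bound n k hn⟩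
    · rw [h, abs_neg]; exact ⟨es_le n k, es_bound n k hn⟩
  refine ⟨?_, ?_, ?_⟩
  · have := (abs_le.1 hx.1).1
    linarith
  · rw [add_sub_cancel_left]; exact hx.1
  · rw [add_sub_cancel_left]; exact hx.2

theorem max_cases' (P : ℤ → Prop) (a b : ℤ) (ha : P a) (hb : P b) : P (max a b) := by
  rcases max_choice a b with h | h <;> rw [h] <;> assumption

theorem min_cases' (P : ℤ → Prop) (a b : ℤ) (ha : P a) (hb : P b) : P (min a b) := by
  rcases min_choice a b with h | h <;> rw [h] <;> assumption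

theorem sync_plus (n k : ℕ) (hk : k + 3 ≤ n) :
    max (eu n k + ds n k) (eu n k + es n k) * max (eu n (k + 2) + ds n (k + 2))
      (eu n (k + 2) + es n (k + 2)) ≤ (min (eu n (k + 1) + ds n (k + 1))
        (eu n (k + 1) + es n (k + 1))) ^ 2 := by
  by_cases hn : n < 12
  · exact (small_sync n (Finset.mem_range.2 hn) k (Finset.mem_range.2 (by omega)) hk).1
  · have hn' : 12 ≤ n := not_lt.1 hn
    apply near_sync n k hn' hk
    · exact max_cases' (Near n k) _ _ (near_of n k hn' _ (Or.inl rfl))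
        (near_of n k hn' _ (Or.inr (Or.inl rfl)))
    · exact min_cases' (Near n (k + 1)) _ _ (near_of n _ hn' _ (Or.inl rfl))
        (near_of n _ hn' _ (Or.inr (Or.inl rfl)))
    · exact max_cases' (Near n (k + 2)) _ _ (near_of n _ hn' _ (Or.inl rfl))
        (near_of n _ hn' _ (Or.inr (Or.inl rfl)))

theorem sync_minus (n k : ℕ) (hk : k + 3 ≤ n) :
    max (eu n k - ds n k) (eu n k - es n k) * max (eu n (k + 2) - ds n (k + 2))
      (eu n (k + 2) - es n (k + 2)) ≤ (min (eu n (k + 1) - ds n (k + 1))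
        (eu n (k + 1) - es n (k + 1))) ^ 2 := by
  by_cases hn : n < 12
  · exact (small_sync n (Finset.mem_range.2 hn) k (Finset.mem_range.2 (by omega)) hk).2
  · have hn' : 12 ≤ n := not_lt.1 hn
    simp only [sub_eq_add_neg]
    apply near_sync n k hn' hk
    · exact max_cases' (Near n k) _ _ (near_of n k hn' _ (Or.inr (Or.inr (Or.inl rfl))))
        (near_of n k hn' _ (Or.inr (Or.inr (Or.inr rfl))))
    · exact min_cases' (Near n (k + 1)) _ _ (near_of n _ hn' _ (Or.inr (Or.inr (Or.inl rfl))))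
        (near_of n _ hn' _ (Or.inr (Or.inr (Or.inr rfl))))
    · exact max_cases' (Near n (k + 2)) _ _ (near_of n _ hn' _ (Or.inr (Or.inr (Or.inl rfl))))
        (near_of n _ hn' _ (Or.inr (Or.inr (Or.inr rfl))))

/-- Halving the inequality. -/
theorem halve (a₀ a₁ a₂ b₀ b₁ b₂ : ℕ)
    (h : max (2 * a₀ : ℤ) (2 * b₀) * max (2 * a₂ : ℤ) (2 * b₂) ≤ (min (2 * a₁ : ℤ) (2 * b₁)) ^ 2) :
    max a₀ b₀ * max a₂ b₂ ≤ (min a₁ b₁) ^ 2 := by
  have e0 : max (2 * a₀ : ℤ) (2 * b₀) = 2 * ((max a₀ b₀ : ℕ) : ℤ) := by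
    push_cast
    rw [mul_max_of_nonneg _ _ (by norm_num : (0 : ℤ) ≤ 2)]
  have e2 : max (2 * a₂ : ℤ) (2 * b₂) = 2 * ((max a₂ b₂ : ℕ) : ℤ) := by
    push_cast
    rw [mul_max_of_nonneg _ _ (by norm_num : (0 : ℤ) ≤ 2)]
  have e1 : min (2 * a₁ : ℤ) (2 * b₁) = 2 * ((min a₁ b₁ : ℕ) : ℤ) := by
    push_cast
    rw [mul_min_of_nonneg _ _ (by norm_num : (0 : ℤ) ≤ 2)]
  rw [e0, e1, e2] at h
  have h' : ((max a₀ b₀ : ℕ) : ℤ) * ((max a₂ b₂ : ℕ) : ℤ) ≤ ((min a₁ b₁ : ℕ) : ℤ) ^ 2 := by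
    nlinarith
  exact_mod_cast h'

end Pool.Agent.H25.Sync
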